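import Mathlib

set_option autoImplicit false
open Filter Topology Real MeasureTheory Set Metric
open scoped InnerProductSpace Gradient NNReal

namespace Pool.Agent.H.MP_6dace2_an

/-- The radial flux identity for Lipschitz functions. -/
lemma polar_key {u : ℂ → ℝ} {K : ℝ≥0} (hu : LipschitzWith K u) (a : ℂ) {ρ R : ℝ}
    (hρ : 0 < ρ) (hR : ρ ≤ R) :
    ∫ z, (if ρ < ‖z - a‖ ∧ ‖z - a‖ < R then -(‖z - a‖ ^ 2)⁻¹ * fderiv ℝ u z (z - a) else 0)
      = 2 * π * (circleAverage u a ρ - circleAverage u a R) := by
  have h1 : ∫ z, (if ρ < ‖z - a‖ ∧ ‖z - a‖ < R then -(‖z - a‖ ^ 2)⁻¹ * fderiv ℝ u z (z - a) else 0)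
      = ∫ z, (if ρ < ‖z - a‖ ∧ ‖z - a‖ < R then
          -(‖z - a‖ ^ 2)⁻¹ * lineDeriv ℝ u z (z - a) else 0) := by
    apply integral_congr_ae
    filter_upwards [hu.ae_differentiableAt (μ := volume)] with z hz
    rw [hz.lineDeriv_eq_fderiv]
  rw [h1, ← integral_add_right_eq_self _ a]
  simp only [add_sub_cancel_right]
  rw [← Complex.integral_comp_polarCoord_symm]
  set e : ℝ → ℂ := fun θ => (Real.cos θ : ℂ) + Real.sin θ * Complex.I with he
  have he1 : ∀ θ, ‖e θ‖ = 1 := by
    intro θ
    have := Complex.norm_polarCoord_symm (1, θ)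
    simpa [he] using this
  set F : ℝ × ℝ → ℝ := fun p =>
    (Ioo ρ R).indicator (fun r => -lineDeriv ℝ u ((r : ℂ) * e p.2 + a) (e p.2)) p.1 with hF
  have h2 : ∀ p ∈ polarCoord.target, p.1 • (if ρ < ‖Complex.polarCoord.symm p‖ ∧
      ‖Complex.polarCoord.symm p‖ < R then -(‖Complex.polarCoord.symm p‖ ^ 2)⁻¹ *
        lineDeriv ℝ u (Complex.polarCoord.symm p + a) (Complex.polarCoord.symm p) else 0)
      = F p := by
    intro p hp
    have hp1 : 0 < p.1 := hp.1
    rw [Complex.norm_polarCoord_symm, abs_of_pos hp1, Complex.polarCoord_symm_apply]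
    simp only [hF, indicator, mem_Ioo]
    split_ifs with h
    · have : ((p.1 : ℂ) * ((Real.cos p.2 : ℂ) + Real.sin p.2 * Complex.I)) = p.1 • e p.2 := by
        simp only [he, Complex.real_smul]
      rw [this, lineDeriv_smul]
      simp only [smul_eq_mul, Complex.real_smul]
      field_simp
    · simp
  rw [setIntegral_congr_fun polarCoord.open_target.measurableSet h2]
  have hec : Continuous e := by rw [he]; fun_prop
  have hFm : Measurable F := by
    have h3 : Measurable (fun p : ℝ × ℝ => -lineDeriv ℝ u ((p.1 : ℂ) * e p.2 + a) (e p.2)) := by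
      have h4 : Measurable (fun p : ℝ × ℝ => (((p.1 : ℂ) * e p.2 + a, e p.2) : ℂ × ℂ)) := by
        apply Continuous.measurable
        fun_prop
      exact ((measurable_lineDeriv_uncurry (𝕜 := ℝ) hu.continuous).comp h4).neg
    have h5 : F = (Prod.fst ⁻¹' (Ioo ρ R)).indicator
        (fun p : ℝ × ℝ => -lineDeriv ℝ u ((p.1 : ℂ) * e p.2 + a) (e p.2)) := by
      funext p
      simp only [hF, indicator, mem_preimage]
    rw [h5]
    exact h3.indicator (measurable_fst measurableSet_Ioo)
  have hFi : IntegrableOn F (Ioi (0:ℝ) ×ˢ Ioo (-π) π) (volume.prod volume) := by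
    have h6 : IntegrableOn (fun _ : ℝ × ℝ => (K : ℝ)) (Ioo ρ R ×ˢ Ioo (-π) π)
        (volume.prod volume) := by
      apply integrableOn_const
      · rw [Measure.prod_prod]
        simp [ENNReal.mul_eq_top]
      · simp
    have h7 := (integrable_indicator_iff (measurableSet_Ioo.prod measurableSet_Ioo)).2 h6
    refine Integrable.mono' h7.integrableOn hFm.aestronglyMeasurable ?_
    filter_upwards [ae_restrict_mem (measurableSet_Ioi.prod measurableSet_Ioo)] with p hp
    by_cases h : p.1 ∈ Ioo ρ R
    · have h8 : p ∈ Ioo ρ R ×ˢ Ioo (-π) π := ⟨h, hp.2⟩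
      rw [indicator_of_mem h8]
      simp only [hF, indicator_of_mem h, norm_neg]
      have := norm_lineDeriv_le_of_lipschitz ℝ (x₀ := (p.1 : ℂ) * e p.2 + a) (v := e p.2) hu
      rwa [he1, mul_one] at this
    · simp only [hF, indicator_of_notMem h, norm_zero]
      exact indicator_nonneg (fun _ _ => K.coe_nonneg) _
  rw [polarCoord_target, Measure.volume_eq_prod, ← Measure.prod_restrict]
  rw [IntegrableOn, ← Measure.prod_restrict] at hFi
  rw [integral_prod_symm _ hFi]
  have h9 : ∀ θ, ∫ r in Ioi (0:ℝ), F (r, θ) = u (ρ * e θ + a) - u (R * e θ + a) := by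
    intro θ
    simp only [hF]
    have hsub : Ioo ρ R ⊆ Ioi (0:ℝ) := fun x hx => hρ.trans hx.1
    rw [setIntegral_indicator measurableSet_Ioo, inter_eq_right.2 hsub,
      ← integral_Ioc_eq_integral_Ioo, ← intervalIntegral.integral_of_le hR]
    have hl : LipschitzWith (K * 1) (fun s : ℝ => u ((s : ℂ) * e θ + a)) := by
      apply hu.comp (g := fun s : ℝ => (s : ℂ) * e θ + a)
      apply LipschitzWith.of_dist_le_mul
      intro x y
      rw [dist_eq_norm, add_sub_add_right_eq_sub, ← sub_mul, norm_mul, he1, ← Complex.ofReal_sub,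
        Complex.norm_real, Real.dist_eq]
      simp
    have h10 := (hl.lipschitzOnWith (s := uIcc ρ R)).absolutelyContinuousOnInterval.integral_deriv_eq_sub
    have h11 : ∀ r : ℝ, lineDeriv ℝ u ((r : ℂ) * e θ + a) (e θ)
        = deriv (fun s : ℝ => u ((s : ℂ) * e θ + a)) r := by
      intro r
      have := deriv_comp_const_add (fun s : ℝ => u ((s : ℂ) * e θ + a)) r 0
      rw [add_zero] at this
      rw [← this, lineDeriv]
      congr 1
      funext t
      congr 1
      simp only [Complex.real_smul, Complex.ofReal_add]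
      ring
    simp only [h11]
    rw [intervalIntegral.integral_neg, h10]
    ring
  simp only [h9]
  have hav : ∀ t : ℝ, ∫ θ in Ioo (-π) π, u (t * e θ + a) = 2 * π * circleAverage u a t := by
    intro t
    rw [circleAverage_eq_integral_add (-π),
      intervalIntegral.integral_comp_add_right (fun θ => u (circleMap a t θ)),
      ← integral_Ioc_eq_integral_Ioo, ← intervalIntegral.integral_of_le (by linarith [pi_pos])]
    have : (2 * π + -π) = π := by ring
    rw [this, zero_add, smul_eq_mul, ← mul_assoc, mul_inv_cancel₀ (by positivity), one_mul]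
    congr 1
    funext θ
    congr 1
    rw [circleMap, Complex.exp_mul_I, add_comm]
    simp [he]
  have hint : ∀ t : ℝ, IntegrableOn (fun θ => u (t * e θ + a)) (Ioo (-π) π) := by
    intro t
    have : Continuous (fun θ => u (t * e θ + a)) := hu.continuous.comp (by fun_prop)
    exact (this.integrableOn_Icc).mono_set Ioo_subset_Icc_self
  rw [integral_sub (hint ρ) (hint R), hav, hav]
  ring

end Pool.Agent.H.MP_6dace2_an
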