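import Pool.Agent.H.MP_6dace2_an.A

set_option autoImplicit false
open Filter Topology Real MeasureTheory Set Metric
open scoped InnerProductSpace Gradient NNReal

namespace Pool.Agent.H.MP_6dace2_an

def Lip (u : ℂ → ℝ) : Prop := ∃ K : ℝ≥0, LipschitzWith K u

def LC (f : ℂ → ℝ) : Prop := Lip f ∧ ∃ M : ℝ, ∀ z, M ≤ ‖z‖ → f z = 0

noncomputable def bil (u v : ℂ → ℝ) : ℝ := ∫ z, ⟪∇ u z, ∇ v z⟫_ℝ

noncomputable def g (a : ℂ) (ρ R : ℝ) (z : ℂ) : ℝ := log R - log (max ρ (min R ‖z - a‖))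

lemma norm_grad (u : ℂ → ℝ) (z : ℂ) : ‖∇ u z‖ = ‖fderiv ℝ u z‖ := by
  simp [gradient]

lemma meas_grad (u : ℂ → ℝ) : Measurable (∇ u) :=
  (InnerProductSpace.toDual ℝ ℂ).symm.continuous.measurable.comp (measurable_fderiv ℝ u)

lemma Lip.cont {u : ℂ → ℝ} (h : Lip u) : Continuous u := by
  obtain ⟨K, hK⟩ := h
  exact hK.continuous

lemma Lip.ae {u : ℂ → ℝ} (h : Lip u) : ∀ᵐ z : ℂ, DifferentiableAt ℝ u z := by
  obtain ⟨K, hK⟩ := h
  exact hK.ae_differentiableAt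

lemma lip_const (c : ℝ) : Lip (fun _ => c) := ⟨0, LipschitzWith.const c⟩

lemma Lip.add {u v : ℂ → ℝ} (hu : Lip u) (hv : Lip v) : Lip (fun z => u z + v z) := by
  obtain ⟨K, hK⟩ := hu
  obtain ⟨L, hL⟩ := hv
  exact ⟨_, hK.add hL⟩

lemma Lip.sub {u v : ℂ → ℝ} (hu : Lip u) (hv : Lip v) : Lip (fun z => u z - v z) := by
  obtain ⟨K, hK⟩ := hu
  obtain ⟨L, hL⟩ := hv
  exact ⟨_, hK.sub hL⟩

lemma Lip.cmul {u : ℂ → ℝ} (hu : Lip u) (c : ℝ) : Lip (fun z => c * u z) := by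
  obtain ⟨K, hK⟩ := hu
  refine ⟨‖c‖₊ * K, LipschitzWith.of_dist_le_mul fun x y => ?_⟩
  have := hK.dist_le_mul x y
  rw [Real.dist_eq] at this ⊢
  rw [← mul_sub, abs_mul]
  push_cast
  rw [mul_assoc]
  exact mul_le_mul_of_nonneg_left this (abs_nonneg c)

lemma Lip.minc {u : ℂ → ℝ} (hu : Lip u) (c : ℝ) : Lip (fun z => min (u z) c) := by
  obtain ⟨K, hK⟩ := hu
  exact ⟨_, hK.min_const c⟩

lemma lip_sum {ι : Type*} (s : Finset ι) {f : ι → ℂ → ℝ} (hf : ∀ i ∈ s, Lip (f i)) :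
    Lip (fun z => ∑ i ∈ s, f i z) := by
  classical
  induction s using Finset.induction_on with
  | empty => simpa using lip_const 0
  | insert a s ha ih =>
    simp only [Finset.sum_insert ha]
    exact (hf a (Finset.mem_insert_self _ _)).add
      (ih fun i hi => hf i (Finset.mem_insert_of_mem hi))

lemma LC.sub {u v : ℂ → ℝ} (hu : LC u) (hv : LC v) : LC (fun z => u z - v z) := by
  obtain ⟨h1, M, hM⟩ := hu
  obtain ⟨h2, N, hN⟩ := hv
  refine ⟨h1.sub h2, max M N, fun z hz => ?_⟩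
  simp [hM z (le_of_max_le_left hz), hN z (le_of_max_le_right hz)]

lemma lc_sum {ι : Type*} [Fintype ι] (c : ι → ℝ) {f : ι → ℂ → ℝ} (hf : ∀ i, LC (f i)) :
    LC (fun z => ∑ i, c i * f i z) := by
  refine ⟨lip_sum _ fun i _ => (hf i).1.cmul (c i), ?_⟩
  choose M hM using fun i => (hf i).2
  refine ⟨∑ i, |M i|, fun z hz => Finset.sum_eq_zero fun i _ => ?_⟩
  have : |M i| ≤ ∑ i, |M i| :=
    Finset.single_le_sum (f := fun i => |M i|) (fun _ _ => abs_nonneg _) (Finset.mem_univ i)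
  rw [hM i z (by linarith [le_abs_self (M i)]), mul_zero]

lemma LC.minc {u : ℂ → ℝ} (hu : LC u) {c : ℝ} (hc : 0 ≤ c) : LC (fun z => min (u z) c) := by
  obtain ⟨h1, M, hM⟩ := hu
  exact ⟨h1.minc c, M, fun z hz => by simp [hM z hz, hc]⟩

lemma grad_zero_of {f : ℂ → ℝ} {M : ℝ} (hM : ∀ z, M ≤ ‖z‖ → f z = 0) {z : ℂ} (hz : M < ‖z‖) :
    ∇ f z = 0 := by
  have : f =ᶠ[𝓝 z] fun _ => 0 := by
    have h : ∀ᶠ y in 𝓝 z, M < ‖y‖ := continuous_norm.continuousAt.eventually (lt_mem_nhds hz)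
    filter_upwards [h] with y hy using hM y hy.le
  rw [this.gradient_eq, gradient_fun_const]

lemma integrable_bil {u f : ℂ → ℝ} (hu : Lip u) (hf : LC f) :
    Integrable (fun z => ⟪∇ u z, ∇ f z⟫_ℝ) := by
  obtain ⟨K, hK⟩ := hu
  obtain ⟨⟨L, hL⟩, M, hM⟩ := hf
  have h6 : IntegrableOn (fun _ : ℂ => (K : ℝ) * L) (closedBall 0 M) :=
    integrableOn_const (measure_closedBall_lt_top.ne) enorm_ne_top
  have h7 := (integrable_indicator_iff measurableSet_closedBall).2 h6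
  refine Integrable.mono' h7 ((meas_grad u).inner (meas_grad f)).aestronglyMeasurable ?_
  refine Eventually.of_forall fun z => ?_
  by_cases hz : z ∈ closedBall (0:ℂ) M
  · rw [indicator_of_mem hz]
    refine (norm_inner_le_norm _ _).trans ?_
    rw [norm_grad, norm_grad]
    exact mul_le_mul (norm_fderiv_le_of_lipschitz ℝ hK) (norm_fderiv_le_of_lipschitz ℝ hL)
      (norm_nonneg _) K.coe_nonneg
  · rw [indicator_of_notMem hz, grad_zero_of hM (by simpa using hz)]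
    simp

lemma bil_comm (u v : ℂ → ℝ) : bil u v = bil v u := by
  simp only [bil, real_inner_comm]

lemma grad_sum {ι : Type*} [Fintype ι] (c : ι → ℝ) {f : ι → ℂ → ℝ} {z : ℂ}
    (hf : ∀ i, DifferentiableAt ℝ (f i) z) :
    ∇ (fun x => ∑ i, c i * f i x) z = ∑ i, c i • ∇ (f i) z := by
  have h : HasFDerivAt (fun x => ∑ i, c i * f i x) (∑ i, c i • fderiv ℝ (f i) z) z :=
    HasFDerivAt.fun_sum fun i _ => (hf i).hasFDerivAt.const_mul (c i)
  simp only [gradient, h.fderiv, map_sum, map_smul]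

lemma bil_sum {ι : Type*} [Fintype ι] (c : ι → ℝ) {u : ℂ → ℝ} {f : ι → ℂ → ℝ} (hu : Lip u)
    (hf : ∀ i, LC (f i)) : bil u (fun x => ∑ i, c i * f i x) = ∑ i, c i * bil u (f i) := by
  have h : ∀ᵐ z : ℂ, ∀ i, DifferentiableAt ℝ (f i) z := ae_all_iff.2 fun i => (hf i).1.ae
  have h2 : bil u (fun x => ∑ i, c i * f i x) = ∫ z, ∑ i, c i * ⟪∇ u z, ∇ (f i) z⟫_ℝ := by
    apply integral_congr_ae
    filter_upwards [h] with z hz
    rw [grad_sum c hz, inner_sum]
    simp only [real_inner_smul_right]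
  rw [h2, integral_finset_sum _ fun i _ => (integrable_bil hu (hf i)).const_mul (c i)]
  simp only [integral_const_mul, bil]

lemma bil_sub {u f h : ℂ → ℝ} (hu : Lip u) (hf : LC f) (hh : LC h) :
    bil u (fun x => f x - h x) = bil u f - bil u h := by
  have h2 : bil u (fun x => f x - h x) = ∫ z, (⟪∇ u z, ∇ f z⟫_ℝ - ⟪∇ u z, ∇ h z⟫_ℝ) := by
    apply integral_congr_ae
    filter_upwards [hf.1.ae, hh.1.ae] with z h1 h2
    have h3 := (h1.hasFDerivAt.fun_sub h2.hasFDerivAt).fderiv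
    simp only [gradient, h3, map_sub, inner_sub_right]
  rw [h2, integral_sub (integrable_bil hu hf) (integrable_bil hu hh)]
  rfl

lemma log_lip {ρ x y : ℝ} (hρ : 0 < ρ) (hx : ρ ≤ x) (hy : ρ ≤ y) :
    log x - log y ≤ ρ⁻¹ * |x - y| := by
  have hx0 : 0 < x := hρ.trans_le hx
  have hy0 : 0 < y := hρ.trans_le hy
  rw [← log_div hx0.ne' hy0.ne']
  refine (log_le_sub_one_of_pos (div_pos hx0 hy0)).trans ?_
  have h1 : x / y - 1 = y⁻¹ * (x - y) := by field_simp
  rw [h1]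
  calc y⁻¹ * (x - y) ≤ y⁻¹ * |x - y| := by gcongr; exact le_abs_self _
    _ ≤ ρ⁻¹ * |x - y| := by gcongr

lemma g_lc (a : ℂ) {ρ R : ℝ} (hρ : 0 < ρ) (hR : ρ ≤ R) : LC (g a ρ R) := by
  constructor
  · refine ⟨⟨ρ⁻¹, by positivity⟩, LipschitzWith.of_le_add_mul _ fun x y => ?_⟩
    have h1 := log_lip hρ (le_max_left ρ (min R ‖y - a‖)) (le_max_left ρ (min R ‖x - a‖))
    have h2 : |max ρ (min R ‖y - a‖) - max ρ (min R ‖x - a‖)| ≤ dist x y := by
      have h3 : |‖y - a‖ - ‖x - a‖| ≤ dist x y := by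
        refine (abs_norm_sub_norm_le _ _).trans ?_
        rw [dist_comm, dist_eq_norm]
        simp
      refine le_trans ?_ h3
      rw [max_comm ρ, max_comm ρ]
      refine (abs_max_sub_max_le_abs _ _ _).trans ?_
      have := abs_min_sub_min_le_max R ‖y - a‖ R ‖x - a‖
      simpa using this
    have h4 : ρ⁻¹ * |max ρ (min R ‖y - a‖) - max ρ (min R ‖x - a‖)| ≤ ρ⁻¹ * dist x y := by
      gcongr
    change g a ρ R x ≤ g a ρ R y + ρ⁻¹ * dist x y
    simp only [g]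
    linarith
  · refine ⟨R + ‖a‖, fun z hz => ?_⟩
    have : R ≤ ‖z - a‖ := by linarith [norm_sub_norm_le z a]
    simp [g, min_eq_left this, max_eq_right hR]

lemma g_nonneg (a : ℂ) {ρ R : ℝ} (hρ : 0 < ρ) (hR : ρ ≤ R) (z : ℂ) : 0 ≤ g a ρ R z := by
  have : log (max ρ (min R ‖z - a‖)) ≤ log R :=
    log_le_log (lt_max_of_lt_left hρ) (max_le hR (min_le_left _ _))
  simp only [g]
  linarith

lemma g_eq {a z : ℂ} {ρ R : ℝ} (h1 : ρ ≤ ‖z - a‖) (h2 : ‖z - a‖ ≤ R) :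
    g a ρ R z = log R - log ‖z - a‖ := by
  simp [g, min_eq_right h2, max_eq_right h1]

lemma g_le {a z : ℂ} {ρ R t : ℝ} (ht : 0 < t) (h1 : t ≤ ‖z - a‖) (h2 : t ≤ R) :
    g a ρ R z ≤ log R - log t := by
  have : log t ≤ log (max ρ (min R ‖z - a‖)) :=
    log_le_log ht (le_max_of_le_right (le_min h2 h1))
  simp only [g]
  linarith

lemma g_le' {a z : ℂ} {ρ R : ℝ} (hρ : 0 < ρ) : g a ρ R z ≤ log R - log ρ := by
  have : log ρ ≤ log (max ρ (min R ‖z - a‖)) := log_le_log hρ (le_max_left _ _)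
  simp only [g]
  linarith

lemma grad_log {a z : ℂ} (hz : z ≠ a) (c : ℝ) :
    ∇ (fun x => c - log ‖x - a‖) z = -((‖z - a‖ ^ 2)⁻¹ • (z - a)) := by
  have h0 : ‖z - a‖ ^ 2 ≠ 0 := pow_ne_zero _ (norm_ne_zero_iff.2 (sub_ne_zero.2 hz))
  have h1 : HasFDerivAt (fun x : ℂ => ‖x - a‖ ^ 2) _ z := ((hasFDerivAt_id z).sub_const a).norm_sq
  have h2 := ((h1.log h0).const_mul (1/2 : ℝ)).const_sub c
  have h3 : (fun x : ℂ => c - log ‖x - a‖) = fun x => c - (1/2 : ℝ) * log (‖x - a‖ ^ 2) := by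
    funext x
    rw [log_pow]
    push_cast
    ring
  apply ext_inner_right ℝ
  intro v
  rw [inner_gradient_left, h3, h2.fderiv]
  simp only [inner_neg_left, real_inner_smul_left,
    ContinuousLinearMap.neg_apply, ContinuousLinearMap.smul_apply, smul_eq_mul,
    ContinuousLinearMap.comp_apply, ContinuousLinearMap.id_apply, innerSL_apply_apply, id,
    nsmul_eq_mul]
  push_cast
  ring

lemma bil_g {u : ℂ → ℝ} (hu : Lip u) (a : ℂ) {ρ R : ℝ} (hρ : 0 < ρ) (hR : ρ ≤ R) :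
    bil u (g a ρ R) = 2 * π * (circleAverage u a ρ - circleAverage u a R) := by
  obtain ⟨K, hK⟩ := hu
  rw [← polar_key hK a hρ hR]
  apply integral_congr_ae
  have h1 : ∀ᵐ z : ℂ, z ∉ sphere a ρ := compl_mem_ae_iff.2 (Measure.addHaar_sphere volume a ρ)
  have h2 : ∀ᵐ z : ℂ, z ∉ sphere a R := compl_mem_ae_iff.2 (Measure.addHaar_sphere volume a R)
  have hc : Continuous (fun x : ℂ => ‖x - a‖) := by fun_prop
  filter_upwards [h1, h2] with z h1 h2
  rw [mem_sphere, dist_eq_norm] at h1 h2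
  split_ifs with h
  · have h3 : g a ρ R =ᶠ[𝓝 z] fun x => log R - log ‖x - a‖ := by
      filter_upwards [hc.continuousAt.eventually (lt_mem_nhds h.1),
        hc.continuousAt.eventually (gt_mem_nhds h.2)] with y hy1 hy2
      exact g_eq hy1.le hy2.le
    have hz : z ≠ a := by
      rintro rfl
      simp only [sub_self, norm_zero] at h
      linarith [h.1]
    rw [h3.gradient_eq, grad_log hz, inner_neg_right, real_inner_smul_right, inner_gradient_left]
    ring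
  · have h4 : ∇ (g a ρ R) z = 0 := by
      rcases lt_or_gt_of_ne h1 with h5 | h5
      · have h3 : g a ρ R =ᶠ[𝓝 z] fun _ => log R - log ρ := by
          filter_upwards [hc.continuousAt.eventually (gt_mem_nhds h5)] with y hy
          have : min R ‖y - a‖ ≤ ρ := (min_le_right _ _).trans hy.le
          simp only [g, max_eq_left this]
        rw [h3.gradient_eq, gradient_fun_const]
      · have h6 : R < ‖z - a‖ := by
          rcases lt_or_gt_of_ne h2 with h7 | h7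
          · exact absurd ⟨h5, h7⟩ h
          · exact h7
        have h3 : g a ρ R =ᶠ[𝓝 z] fun _ => 0 := by
          filter_upwards [hc.continuousAt.eventually (lt_mem_nhds h6)] with y hy
          simp [g, min_eq_left hy.le, max_eq_right hR]
        rw [h3.gradient_eq, gradient_fun_const]
    rw [h4, inner_zero_right]

end Pool.Agent.H.MP_6dace2_an
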