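import Pool.Agent.H.MP_6dace2_an.B

set_option autoImplicit false
open Filter Topology Real MeasureTheory Set Metric
open scoped InnerProductSpace Gradient NNReal

namespace Pool.Agent.H.MP_6dace2_an

noncomputable def pot {N : ℕ} (w : Fin N → ℂ) (ρ R : ℝ) (x : ℂ) : ℝ :=
  ∑ j, (N : ℝ)⁻¹ * g (w j) ρ R x

noncomputable def mav (u : ℂ → ℝ) {N : ℕ} (w : Fin N → ℂ) (t : ℝ) : ℝ :=
  ∑ j, (N : ℝ)⁻¹ * circleAverage u (w j) t

lemma avg_le {N : ℕ} (hN : N ≠ 0) {f : Fin N → ℝ} {A : ℝ} (h : ∀ j, f j ≤ A) :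
    ∑ j, (N : ℝ)⁻¹ * f j ≤ A := by
  have hN' : (0:ℝ) < N := by positivity
  calc ∑ j, (N : ℝ)⁻¹ * f j ≤ ∑ _j : Fin N, (N : ℝ)⁻¹ * A :=
        Finset.sum_le_sum fun j _ => mul_le_mul_of_nonneg_left (h j) (by positivity)
    _ = A := by
        rw [Finset.sum_const, Finset.card_univ, Fintype.card_fin, nsmul_eq_mul]
        field_simp

lemma le_avg {N : ℕ} (hN : N ≠ 0) {f : Fin N → ℝ} {A : ℝ} (h : ∀ j, A ≤ f j) :
    A ≤ ∑ j, (N : ℝ)⁻¹ * f j := by
  have := avg_le hN (f := fun j => -f j) (A := -A) fun j => neg_le_neg (h j)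
  simp only [mul_neg, Finset.sum_neg_distrib] at this
  linarith

lemma cav_le {u : ℂ → ℝ} (hu : Continuous u) {a : ℂ} {t A : ℝ} (ht : 0 < t)
    (h : ∀ x, ‖x - a‖ = t → u x ≤ A) : circleAverage u a t ≤ A := by
  apply circleAverage_mono_on_of_le_circle hu.continuousOn.circleIntegrable'
  intro x hx
  rw [abs_of_pos ht, mem_sphere, dist_eq_norm] at hx
  exact h x hx

lemma le_cav {u : ℂ → ℝ} (hu : Continuous u) {a : ℂ} {t A : ℝ} (ht : 0 < t)
    (h : ∀ x, ‖x - a‖ = t → A ≤ u x) : A ≤ circleAverage u a t := by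
  rw [← circleAverage_const A a t]
  apply circleAverage_mono (circleIntegrable_const _ _ _) hu.continuousOn.circleIntegrable'
  intro x hx
  rw [abs_of_pos ht, mem_sphere, dist_eq_norm] at hx
  exact h x hx

lemma mav_le {u : ℂ → ℝ} (hu : Continuous u) {N : ℕ} (hN : N ≠ 0) {w : Fin N → ℂ} {t A : ℝ}
    (ht : 0 < t) (h : ∀ j x, ‖x - w j‖ = t → u x ≤ A) : mav u w t ≤ A :=
  avg_le hN fun j => cav_le hu ht (h j)

lemma le_mav {u : ℂ → ℝ} (hu : Continuous u) {N : ℕ} (hN : N ≠ 0) {w : Fin N → ℂ} {t A : ℝ}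
    (ht : 0 < t) (h : ∀ j x, ‖x - w j‖ = t → A ≤ u x) : A ≤ mav u w t :=
  le_avg hN fun j => le_cav hu ht (h j)

lemma pot_lc {N : ℕ} (w : Fin N → ℂ) {ρ R : ℝ} (hρ : 0 < ρ) (hR : ρ ≤ R) : LC (pot w ρ R) :=
  lc_sum _ fun j => g_lc (w j) hρ hR

lemma pot_nonneg {N : ℕ} (w : Fin N → ℂ) {ρ R : ℝ} (hρ : 0 < ρ) (hR : ρ ≤ R) (x : ℂ) :
    0 ≤ pot w ρ R x :=
  Finset.sum_nonneg fun j _ => mul_nonneg (by positivity) (g_nonneg _ hρ hR x)

lemma bil_pot {u : ℂ → ℝ} (hu : Lip u) {N : ℕ} (w : Fin N → ℂ) {ρ R : ℝ} (hρ : 0 < ρ)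
    (hR : ρ ≤ R) : bil u (pot w ρ R) = 2 * π * (mav u w ρ - mav u w R) := by
  have := bil_sum (fun _ : Fin N => (N : ℝ)⁻¹) hu (fun j => g_lc (w j) hρ hR)
  change bil u (pot w ρ R) = _ at this
  rw [this, mav, mav, ← Finset.sum_sub_distrib, Finset.mul_sum]
  refine Finset.sum_congr rfl fun j _ => ?_
  rw [bil_g hu _ hρ hR]
  ring

/-- separation hypothesis for two clusters -/
def Sep (a b : ℂ) (s ω M : ℝ) : Prop :=
  (∀ x y, ‖x - a‖ < 2 * s → ‖y - b‖ < 2 * s →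
    |log ‖x - y‖ - log ‖a - b‖| ≤ ω ∧ 2 * s ≤ ‖x - y‖) ∧ ‖a - b‖ + 4 * s ≤ M

lemma pot_near {a b : ℂ} {s ω M ρ R : ℝ} (h : Sep a b s ω M) (hs : 0 < s) (hρ : ρ ≤ s)
    (hR : 2 * M ≤ R) {N : ℕ} (hN : N ≠ 0) {w : Fin N → ℂ} (hw : ∀ j, ‖w j - b‖ < s) {x : ℂ}
    (hx : ‖x - a‖ < 2 * s) : |pot w ρ R x - (log R - log ‖a - b‖)| ≤ ω := by
  have key : ∀ j, |g (w j) ρ R x - (log R - log ‖a - b‖)| ≤ ω := by
    intro j
    have h1 := h.1 x (w j) hx (by linarith [hw j])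
    have h2 : ‖x - w j‖ ≤ ‖x - a‖ + ‖a - b‖ + ‖w j - b‖ := by
      have : x - w j = (x - a) + (a - b) - (w j - b) := by ring
      rw [this]
      exact (norm_sub_le _ _).trans (by gcongr; exact norm_add_le _ _)
    have h3 := h.2
    have h4 := norm_nonneg (a - b)
    rw [g_eq (by linarith [h1.2]) (by linarith [hw j])]
    have h5 := abs_le.1 h1.1
    rw [abs_le]
    constructor <;> linarith [h5.1, h5.2]
  rw [abs_le]
  constructor
  · have := le_avg hN (f := fun j => g (w j) ρ R x) (A := log R - log ‖a - b‖ - ω)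
      fun j => by linarith [(abs_le.1 (key j)).1]
    simp only [pot]
    linarith
  · have := avg_le hN (f := fun j => g (w j) ρ R x) (A := log R - log ‖a - b‖ + ω)
      fun j => by linarith [(abs_le.1 (key j)).2]
    simp only [pot]
    linarith

lemma pot_far {b : ℂ} {s ρ R t : ℝ} (ht : 0 < t) (htR : t ≤ R) {N : ℕ} (hN : N ≠ 0)
    {w : Fin N → ℂ} (hw : ∀ j, ‖w j - b‖ < s) {x : ℂ} (hx : t + s ≤ ‖x - b‖) :
    pot w ρ R x ≤ log R - log t := by
  refine avg_le hN fun j => g_le ht ?_ htR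
  have : ‖x - b‖ ≤ ‖x - w j‖ + ‖w j - b‖ := norm_sub_le_norm_sub_add_norm_sub _ _ _
  linarith [hw j]

lemma cross {a b : ℂ} {s ω M ρ R ε : ℝ} (h : Sep a b s ω M) (hs : 0 < s) (hρ0 : 0 < ρ)
    (hρ : ρ ≤ s) (hR : 2 * M ≤ R) (hε : log R - log (R - M) ≤ ε) {N N' : ℕ} (hN : N ≠ 0)
    (hN' : N' ≠ 0) {w : Fin N → ℂ} {w' : Fin N' → ℂ} (hw : ∀ j, ‖w j - a‖ < s)
    (hw' : ∀ j, ‖w' j - b‖ < s) {u : ℂ → ℝ} (hu : Lip u)
    (he : ∀ x, 2 * s ≤ ‖x - b‖ → u x = pot w' ρ R x) :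
    |bil u (pot w ρ R) - 2 * π * (log R - log ‖a - b‖)| ≤ 2 * π * (ω + ε) := by
  have h3 := h.2
  have h4 := norm_nonneg (a - b)
  have hρR : ρ ≤ R := by linarith
  have hnear : ∀ j x, ‖x - w j‖ = ρ → |u x - (log R - log ‖a - b‖)| ≤ ω := by
    intro j x hx
    have h1 : ‖x - a‖ < 2 * s := by
      have : ‖x - a‖ ≤ ‖x - w j‖ + ‖w j - a‖ := norm_sub_le_norm_sub_add_norm_sub _ _ _
      linarith [hw j]
    rw [he x (h.1 x b h1 (by simpa using hs)).2]
    exact pot_near h hs hρ hR hN' hw' h1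
  have hfar : ∀ j x, ‖x - w j‖ = R → 0 ≤ u x ∧ u x ≤ ε := by
    intro j x hx
    have h1 : R - M + s ≤ ‖x - b‖ := by
      have h5 : ‖x - w j‖ ≤ ‖x - b‖ + ‖a - b‖ + ‖w j - a‖ := by
        have : x - w j = (x - b) - (a - b) - (w j - a) := by ring
        rw [this]
        exact (norm_sub_le _ _).trans (by gcongr; exact norm_sub_le _ _)
      linarith [hw j]
    rw [he x (by linarith)]
    exact ⟨pot_nonneg _ hρ0 hρR x,
      (pot_far (by linarith) (by linarith) hN' hw' h1).trans hε⟩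
  have a1 := mav_le hu.cont hN hρ0 (w := w) (A := log R - log ‖a - b‖ + ω)
    fun j x hx => by linarith [(abs_le.1 (hnear j x hx)).2]
  have a2 := le_mav hu.cont hN hρ0 (w := w) (A := log R - log ‖a - b‖ - ω)
    fun j x hx => by linarith [(abs_le.1 (hnear j x hx)).1]
  have a3 := mav_le hu.cont hN (by linarith : 0 < R) (w := w) (A := ε)
    fun j x hx => (hfar j x hx).2
  have a4 := le_mav hu.cont hN (by linarith : 0 < R) (w := w) (A := 0)
    fun j x hx => (hfar j x hx).1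
  have hε0 : 0 ≤ ε := a4.trans a3
  rw [bil_pot hu w hρ0 hρR, ← mul_sub, abs_mul, abs_of_pos two_pi_pos]
  refine mul_le_mul_of_nonneg_left ?_ two_pi_pos.le
  rw [abs_le]
  constructor <;> linarith

lemma cav_g {a b : ℂ} {ρ R : ℝ} (hρ : 0 < ρ) (hab : a ≠ b) (hR : ρ + ‖a - b‖ ≤ R) :
    circleAverage (g b ρ R) a ρ ≤ log R - log ‖a - b‖ := by
  have hd : 0 < ‖a - b‖ := norm_pos_iff.2 (sub_ne_zero.2 hab)
  have hi := circleIntegrable_log_norm_sub_const (a := b) (c := a) ρ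
  have h1 : circleAverage (g b ρ R) a ρ ≤ circleAverage (fun x => log R - log ‖x - b‖) a ρ := by
    rw [circleAverage, circleAverage, smul_eq_mul, smul_eq_mul]
    refine mul_le_mul_of_nonneg_left ?_ (by positivity)
    apply intervalIntegral.integral_mono_ae_restrict two_pi_pos.le
      (g_lc b hρ (by linarith)).1.cont.continuousOn.circleIntegrable'
      ((circleIntegrable_const (log R) a ρ).sub hi)
    apply ae_restrict_of_ae
    filter_upwards [((countable_singleton b).preimage_circleMap a hρ.ne').ae_notMem volume]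
      with θ hθ
    have h2 : 0 < ‖circleMap a ρ θ - b‖ := norm_pos_iff.2 (sub_ne_zero.2 hθ)
    refine g_le h2 le_rfl ?_
    have h3 : ‖circleMap a ρ θ - b‖ ≤ ‖circleMap a ρ θ - a‖ + ‖a - b‖ :=
      norm_sub_le_norm_sub_add_norm_sub _ _ _
    rw [circleMap_sub_center, norm_circleMap_zero, abs_of_pos hρ] at h3
    linarith
  rw [circleAverage_fun_sub (circleIntegrable_const (log R) a ρ) hi, circleAverage_const,
    circleAverage_log_norm_sub_const_eq_log_radius_add_posLog hρ.ne'] at h1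
  have h4 : log (ρ⁻¹ * ‖a - b‖) ≤ posLog (ρ⁻¹ * ‖a - b‖) := le_max_right _ _
  rw [log_mul (by positivity) hd.ne', log_inv] at h4
  linarith

lemma self_le {a : ℂ} {s ρ R : ℝ} (hρ0 : 0 < ρ) (hρ : ρ ≤ s) (hR : 3 * s ≤ R) {N : ℕ}
    (hN : N ≠ 0) {w : Fin N → ℂ} (hw : ∀ j, ‖w j - a‖ < s) (hi : Function.Injective w) :
    bil (pot w ρ R) (pot w ρ R) ≤ 2 * π * (log R - (N : ℝ)⁻¹ * log ρ -
      (N : ℝ)⁻¹ ^ 2 * ∑ i, ∑ j ∈ ({i} : Finset (Fin N))ᶜ, log ‖w i - w j‖) := by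
  have hρR : ρ ≤ R := by linarith
  have hl := pot_lc w hρ0 hρR
  have hN' : (0:ℝ) < N := by positivity
  rw [bil_pot hl.1 w hρ0 hρR]
  refine mul_le_mul_of_nonneg_left ?_ two_pi_pos.le
  have a4 := le_mav hl.1.cont hN (by linarith : 0 < R) (w := w) (A := 0)
    fun j x _ => pot_nonneg w hρ0 hρR x
  have a1 : ∀ i, circleAverage (pot w ρ R) (w i) ρ ≤ log R - (N : ℝ)⁻¹ * log ρ -
      (N : ℝ)⁻¹ * ∑ j ∈ ({i} : Finset (Fin N))ᶜ, log ‖w i - w j‖ := by
    intro i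
    have h1 : circleAverage (pot w ρ R) (w i) ρ
        = ∑ j, (N : ℝ)⁻¹ * circleAverage (g (w j) ρ R) (w i) ρ := by
      have := circleAverage_fun_sum (s := Finset.univ) (c := w i) (R := ρ)
        (f := fun j x => (N : ℝ)⁻¹ * g (w j) ρ R x) fun j _ =>
          ((g_lc (w j) hρ0 hρR).1.cmul _).cont.continuousOn.circleIntegrable'
      change circleAverage (pot w ρ R) (w i) ρ = _ at this
      rw [this]
      exact Finset.sum_congr rfl fun j _ => circleAverage_fun_smul (a := (N : ℝ)⁻¹)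
    have h2 : circleAverage (g (w i) ρ R) (w i) ρ ≤ log R - log ρ :=
      cav_le (g_lc (w i) hρ0 hρR).1.cont hρ0 fun x _ => g_le' hρ0
    have h3 : ∑ j ∈ ({i} : Finset (Fin N))ᶜ, circleAverage (g (w j) ρ R) (w i) ρ
        ≤ ∑ j ∈ ({i} : Finset (Fin N))ᶜ, (log R - log ‖w i - w j‖) := by
      refine Finset.sum_le_sum fun j hj => cav_g hρ0 (fun e => ?_) ?_
      · have := hi e
        simp [this] at hj
      · have : ‖w i - w j‖ ≤ ‖w i - a‖ + ‖w j - a‖ := by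
          have : w i - w j = (w i - a) - (w j - a) := by ring
          rw [this]
          exact norm_sub_le _ _
        linarith [hw i, hw j]
    rw [Finset.sum_sub_distrib, Finset.sum_const, Finset.card_compl, Fintype.card_fin,
      Finset.card_singleton, nsmul_eq_mul, Nat.cast_sub (by omega), Nat.cast_one] at h3
    rw [h1, ← Finset.mul_sum, ← Finset.sum_add_sum_compl {i}, Finset.sum_singleton]
    have h5 : (N : ℝ)⁻¹ * (log R - log ρ + ((N - 1) * log R -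
        ∑ j ∈ ({i} : Finset (Fin N))ᶜ, log ‖w i - w j‖)) = log R - (N : ℝ)⁻¹ * log ρ -
      (N : ℝ)⁻¹ * ∑ j ∈ ({i} : Finset (Fin N))ᶜ, log ‖w i - w j‖ := by
      field_simp
      ring
    rw [← h5]
    exact mul_le_mul_of_nonneg_left (by linarith) (by positivity)
  have a2 : mav (pot w ρ R) w ρ ≤ ∑ i, (N : ℝ)⁻¹ * (log R - (N : ℝ)⁻¹ * log ρ -
      (N : ℝ)⁻¹ * ∑ j ∈ ({i} : Finset (Fin N))ᶜ, log ‖w i - w j‖) :=
    Finset.sum_le_sum fun i _ => mul_le_mul_of_nonneg_left (a1 i) (by positivity)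
  have a3 : ∑ i, (N : ℝ)⁻¹ * (log R - (N : ℝ)⁻¹ * log ρ -
      (N : ℝ)⁻¹ * ∑ j ∈ ({i} : Finset (Fin N))ᶜ, log ‖w i - w j‖) = log R - (N : ℝ)⁻¹ * log ρ -
      (N : ℝ)⁻¹ ^ 2 * ∑ i, ∑ j ∈ ({i} : Finset (Fin N))ᶜ, log ‖w i - w j‖ := by
    rw [← Finset.mul_sum, Finset.sum_sub_distrib, Finset.sum_const, Finset.card_univ,
      Fintype.card_fin, nsmul_eq_mul, ← Finset.mul_sum]
    field_simp
  linarith

lemma quad {n : ℕ} (q : Fin n → ℝ) (hq : ∑ k, q k = 0) (b Λ : Fin n → Fin n → ℝ) (l e : ℝ)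
    (h1 : ∀ k, b k k ≤ 2 * π * (l + Λ k k + e))
    (h2 : ∀ k j, k ≠ j → |b k j - 2 * π * (l + Λ k j)| ≤ 2 * π * e) :
    ∑ k, q k * ∑ j, q j * b k j ≤
      2 * π * (∑ k, q k * ∑ j, q j * Λ k j + (∑ k, |q k|) ^ 2 * e) := by
  have key : ∀ k j, q k * (q j * b k j) ≤
      2 * π * l * (q k * q j) + 2 * π * (q k * (q j * Λ k j)) + 2 * π * e * (|q k| * |q j|) := by
    intro k j
    by_cases h : k = j
    · subst h
      rw [abs_mul_abs_self]
      nlinarith [mul_self_nonneg (q k), h1 k, mul_le_mul_of_nonneg_left (h1 k) (mul_self_nonneg (q k))]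
    · have h3 := h2 k j h
      have h4 : q k * q j * (b k j - 2 * π * (l + Λ k j)) ≤ |q k| * |q j| * (2 * π * e) := by
        refine (le_abs_self _).trans ?_
        rw [abs_mul, abs_mul]
        exact mul_le_mul_of_nonneg_left h3 (by positivity)
      nlinarith
  have h5 : ∑ k, ∑ j, 2 * π * l * (q k * q j) = 0 := by
    simp only [← Finset.mul_sum, hq, mul_zero, Finset.sum_const_zero]
  have h6 : ∑ k, ∑ j, 2 * π * e * (|q k| * |q j|) = 2 * π * ((∑ k, |q k|) ^ 2 * e) := by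
    simp only [← Finset.mul_sum, ← Finset.sum_mul]
    ring
  have h7 : ∑ k, ∑ j, 2 * π * (q k * (q j * Λ k j)) = 2 * π * ∑ k, q k * ∑ j, q j * Λ k j := by
    simp only [← Finset.mul_sum]
  calc ∑ k, q k * ∑ j, q j * b k j = ∑ k, ∑ j, q k * (q j * b k j) := by
        simp only [Finset.mul_sum]
    _ ≤ ∑ k, ∑ j, (2 * π * l * (q k * q j) + 2 * π * (q k * (q j * Λ k j))
          + 2 * π * e * (|q k| * |q j|)) :=
        Finset.sum_le_sum fun k _ => Finset.sum_le_sum fun j _ => key k j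
    _ = _ := by
        simp only [Finset.sum_add_distrib]
        rw [h5, h6, h7]
        ring

lemma bil_quad {n : ℕ} (q : Fin n → ℝ) {f : Fin n → ℂ → ℝ} (hf : ∀ k, LC (f k)) :
    bil (fun x => ∑ k, q k * f k x) (fun x => ∑ k, q k * f k x)
      = ∑ k, q k * ∑ j, q j * bil (f k) (f j) := by
  rw [bil_sum q (lc_sum q hf).1 hf]
  refine Finset.sum_congr rfl fun k _ => ?_
  rw [bil_comm, bil_sum q (hf k).1 hf]

lemma ofReal_int_le {f : ℂ → ℝ} (hf : Integrable f) :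
    ENNReal.ofReal (∫ x, f x) ≤ ∫⁻ x, ENNReal.ofReal (f x) := by
  rw [integral_eq_lintegral_pos_part_sub_lintegral_neg_part hf]
  refine le_trans (ENNReal.ofReal_le_ofReal (sub_le_self _ ENNReal.toReal_nonneg)) ?_
  exact ENNReal.ofReal_toReal_le

lemma sq_ofReal (L : ℂ →L[ℝ] ℝ) : ((‖L‖₊ : ENNReal)) ^ 2 = ENNReal.ofReal (‖L‖ ^ 2) := by
  rw [ENNReal.ofReal_pow (norm_nonneg _), ofReal_norm_eq_enorm]
  rfl

lemma dirichlet_lower {u G : ℂ → ℝ} (hu : LocallyLipschitz u) (hG : LC G) (r : ℝ) :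
    ∃ v : ℂ → ℝ, Lip v ∧ (∀ x, ‖x‖ ≤ r → v x = u x) ∧
      ENNReal.ofReal (2 * bil v G - bil G G) ≤ ∫⁻ x, (‖fderiv ℝ u x‖₊ : ENNReal) ^ 2 := by
  obtain ⟨M, hM⟩ := hG.2
  obtain ⟨K, hK⟩ := (hu.locallyLipschitzOn (s := closedBall 0 (max M r + 1))
    ).exists_lipschitzOnWith_of_compact (isCompact_closedBall _ _)
  obtain ⟨v, hv, hvu⟩ := hK.extend_real
  have hlv : Lip v := ⟨K, hv⟩
  refine ⟨v, hlv, fun x hx => (hvu ?_).symm, ?_⟩
  · rw [mem_closedBall_zero_iff]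
    linarith [le_max_right M r]
  have h1 : 2 * bil v G - bil G G = ∫ x, (2 * ⟪∇ v x, ∇ G x⟫_ℝ - ⟪∇ G x, ∇ G x⟫_ℝ) := by
    rw [integral_sub ((integrable_bil hlv hG).const_mul 2) (integrable_bil hG.1 hG),
      integral_const_mul]
    rfl
  rw [h1]
  refine (ofReal_int_le (((integrable_bil hlv hG).const_mul 2).sub
    (integrable_bil hG.1 hG))).trans (lintegral_mono fun x => ?_)
  rw [sq_ofReal]
  apply ENNReal.ofReal_le_ofReal
  by_cases hx : M < ‖x‖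
  · simp only [Pi.sub_apply, grad_zero_of hM hx, inner_zero_right]
    simp
  · have h2 : u =ᶠ[𝓝 x] v := by
      have : closedBall (0:ℂ) (max M r + 1) ∈ 𝓝 x := by
        apply closedBall_mem_nhds_of_mem
        rw [mem_ball_zero_iff]
        linarith [le_max_left M r, not_lt.1 hx]
      filter_upwards [this] with y hy using hvu hy
    rw [← norm_grad, h2.gradient_eq]
    simp only [Pi.sub_apply, real_inner_self_eq_norm_sq]
    nlinarith [real_inner_le_norm (∇ v x) (∇ G x), sq_nonneg (‖∇ v x‖ - ‖∇ G x‖)]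

end Pool.Agent.H.MP_6dace2_an
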