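import Pool.Agent.H.MP_6dace2_an.C

set_option autoImplicit false
open Filter Topology Real MeasureTheory Set Metric
open scoped InnerProductSpace Gradient NNReal

namespace Pool.Agent.H.MP_6dace2_an

noncomputable def Lam {n : ℕ} (z : Fin n → ℂ) (L : Fin n → ℝ) (k l : Fin n) : ℝ :=
  if k = l then L k else -log ‖z k - z l‖

lemma exists_R {M ε : ℝ} (hM : 0 < M) (hε : 0 < ε) (B : ℝ) :
    ∃ R, 2 * M ≤ R ∧ B ≤ R ∧ log R - log (R - M) ≤ ε := by
  obtain ⟨R, h1, h2, h3⟩ : ∃ R, 2 * M ≤ R ∧ B ≤ R ∧ M + M / ε ≤ R :=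
    ⟨max (2 * M) (max B (M + M / ε)), le_max_left _ _, le_max_of_le_right (le_max_left _ _),
      le_max_of_le_right (le_max_right _ _)⟩
  refine ⟨R, h1, h2, ?_⟩
  have h4 := log_lip (ρ := R - M) (x := R) (y := R - M) (by linarith) (by linarith) le_rfl
  rw [sub_sub_cancel, abs_of_pos hM] at h4
  refine h4.trans ?_
  rw [inv_mul_le_iff₀ (by linarith)]
  have h5 : M / ε ≤ R - M := by linarith
  rwa [div_le_iff₀ hε] at h5

lemma lower {n : ℕ} {z : Fin n → ℂ} {δ L q : Fin n → ℝ} {E : Fin n → Set ℂ} {s ω M : ℝ}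
    (hs : 0 < s) (hM : 4 * s ≤ M) (hω : 0 ≤ ω) (hsep : ∀ k l, k ≠ l → Sep (z k) (z l) s ω M)
    (hE : ∀ k, ∀ x ∈ E k, ‖x - z k‖ < s) (hL0 : ∀ k, 0 ≤ L k)
    (hF : ∀ k (m : ℕ), ∀ ε > 0, ∃ w : Fin (m + 2) → ℂ, (∀ j, w j ∈ E k) ∧ Function.Injective w ∧
      -(((m:ℝ) + 2) * ((m:ℝ) + 1)) * (L k + ε) ≤
        ∑ i, ∑ j ∈ ({i} : Finset (Fin (m + 2)))ᶜ, log ‖w i - w j‖)
    (hq : ∑ k, q k = 0) {u : ℂ → ℝ} (hu : LocallyLipschitz u) {c : ℝ}
    (hc : Tendsto u (cocompact ℂ) (𝓝 c)) (hδ : ∀ k, ∀ x ∈ E k, u x = δ k) :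
    ENNReal.ofReal (2 * π * (2 * ∑ k, q k * δ k - ∑ k, q k * ∑ j, q j * Lam z L k j
      - (∑ k, |q k|) ^ 2 * ω)) ≤ ∫⁻ x, (‖fderiv ℝ u x‖₊ : ENNReal) ^ 2 := by
  set S := ∑ k, |q k| with hS
  have hS0 : 0 ≤ S := Finset.sum_nonneg fun _ _ => abs_nonneg _
  set val := 2 * π * (2 * ∑ k, q k * δ k - ∑ k, q k * ∑ j, q j * Lam z L k j - S ^ 2 * ω)
    with hval
  have main : ∀ ε > 0, ENNReal.ofReal (val - 2 * π * (4 * S + 2 * S ^ 2) * ε)
      ≤ ∫⁻ x, (‖fderiv ℝ u x‖₊ : ENNReal) ^ 2 := by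
    intro ε hε
    obtain ⟨B, hB⟩ : ∃ B : ℝ, ∀ k, ∀ x ∈ E k, ‖x‖ ≤ B := by
      refine ⟨∑ k, ‖z k‖ + s, fun k x hx => ?_⟩
      have h1 : ‖z k‖ ≤ ∑ k, ‖z k‖ :=
        Finset.single_le_sum (f := fun k => ‖z k‖) (fun _ _ => norm_nonneg _) (Finset.mem_univ k)
      linarith [hE k x hx, norm_sub_norm_le x (z k)]
    obtain ⟨ρ, hρ0, hρs, hρ⟩ : ∃ ρ > 0, ρ ≤ s ∧ ∀ k, ∀ y ∈ E k, ∀ x, ‖x - y‖ = ρ →
        |u x - δ k| ≤ ε := by
      have h1 := (isCompact_closedBall (0:ℂ) (B + s)).uniformContinuousOn_of_continuous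
        hu.continuous.continuousOn
      obtain ⟨t, ht, h2⟩ := Metric.uniformContinuousOn_iff_le.1 h1 ε hε
      refine ⟨min t s, lt_min ht hs, min_le_right _ _, fun k y hy x hx => ?_⟩
      have h3 := hB k y hy
      rw [← hδ k y hy, ← Real.dist_eq]
      apply h2 x _ y _
      · rw [dist_eq_norm, hx]
        exact min_le_left _ _
      · rw [mem_closedBall_zero_iff]
        linarith [norm_sub_norm_le x y, min_le_right t s]
      · rw [mem_closedBall_zero_iff]
        linarith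
    obtain ⟨m, hm⟩ : ∃ m : ℕ, -log ρ / ε ≤ m := exists_nat_ge _
    choose w hwE hwi hw using fun k => hF k m ε hε
    obtain ⟨T, hT⟩ : ∃ T : ℝ, ∀ x : ℂ, T ≤ ‖x‖ → |u x - c| ≤ ε := by
      have h1 := (Metric.tendsto_nhds.1 hc) ε hε
      rw [Filter.Eventually, mem_cocompact] at h1
      obtain ⟨C, hC, h2⟩ := h1
      obtain ⟨T, hT⟩ := hC.isBounded.exists_norm_le
      refine ⟨T + 1, fun x hx => ?_⟩
      have : x ∈ Cᶜ := fun h => by linarith [hT x h]
      have h3 := h2 this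
      rw [mem_setOf_eq, Real.dist_eq] at h3
      exact h3.le
    obtain ⟨R, hR1, hR2, hR3⟩ := exists_R (by linarith : 0 < M) hε (T + B)
    have hρR : ρ ≤ R := by linarith
    have hN : m + 2 ≠ 0 := by omega
    have hl : ∀ k, LC (pot (w k) ρ R) := fun k => pot_lc _ hρ0 hρR
    obtain ⟨v, hv, hvu, hle⟩ := dirichlet_lower hu (lc_sum q hl) (B + R)
    refine le_trans (ENNReal.ofReal_le_ofReal ?_) hle
    have hwz : ∀ k j, ‖w k j - z k‖ < s := fun k j => hE k _ (hwE k j)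
    have hnear : ∀ k j x, ‖x - w k j‖ = ρ → |v x - δ k| ≤ ε := by
      intro k j x hx
      rw [hvu x (by linarith [norm_sub_norm_le x (w k j), hB k _ (hwE k j)])]
      exact hρ k _ (hwE k j) x hx
    have hfar : ∀ k j x, ‖x - w k j‖ = R → |v x - c| ≤ ε := by
      intro k j x hx
      have h1 := hB k _ (hwE k j)
      rw [hvu x (by linarith [norm_sub_norm_le x (w k j)])]
      exact hT x (by linarith [norm_sub_le x (w k j)])
    have h1 : ∀ k, 2 * π * (q k * δ k - c * q k - 2 * ε * |q k|) ≤ q k * bil v (pot (w k) ρ R) := by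
      intro k
      have a1 := mav_le hv.cont hN hρ0 (w := w k) (A := δ k + ε)
        fun j x hx => by linarith [(abs_le.1 (hnear k j x hx)).2]
      have a2 := le_mav hv.cont hN hρ0 (w := w k) (A := δ k - ε)
        fun j x hx => by linarith [(abs_le.1 (hnear k j x hx)).1]
      have a3 := mav_le hv.cont hN (by linarith : 0 < R) (w := w k) (A := c + ε)
        fun j x hx => by linarith [(abs_le.1 (hfar k j x hx)).2]
      have a4 := le_mav hv.cont hN (by linarith : 0 < R) (w := w k) (A := c - ε)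
        fun j x hx => by linarith [(abs_le.1 (hfar k j x hx)).1]
      have a5 : |mav v (w k) ρ - mav v (w k) R - (δ k - c)| ≤ 2 * ε := by
        rw [abs_le]
        constructor <;> linarith
      have a6 : |q k * (mav v (w k) ρ - mav v (w k) R - (δ k - c))| ≤ |q k| * (2 * ε) := by
        rw [abs_mul]
        exact mul_le_mul_of_nonneg_left a5 (abs_nonneg _)
      rw [bil_pot hv _ hρ0 hρR, mul_left_comm]
      refine mul_le_mul_of_nonneg_left ?_ two_pi_pos.le
      nlinarith [(abs_le.1 a6).1]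
    have h2 : 2 * π * (∑ k, q k * δ k - 2 * ε * S) ≤ bil v (fun x => ∑ k, q k * pot (w k) ρ R x) := by
      rw [bil_sum q hv hl]
      refine le_trans (le_of_eq ?_) (Finset.sum_le_sum fun k _ => h1 k)
      rw [← Finset.mul_sum, Finset.sum_sub_distrib, Finset.sum_sub_distrib, ← Finset.mul_sum,
        ← Finset.mul_sum, hq]
      ring
    have h3 := quad q hq (fun k j => bil (pot (w k) ρ R) (pot (w j) ρ R)) (Lam z L) (log R)
      (ω + 2 * ε) (fun k => ?_) (fun k j hkj => ?_)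
    · rw [bil_quad q hl]
      rw [← hS] at h3
      rw [hval]
      nlinarith [pi_pos]
    · refine (self_le hρ0 hρs (by linarith) hN (hwz k) (hwi k)).trans ?_
      refine mul_le_mul_of_nonneg_left ?_ two_pi_pos.le
      have hm0 : (0:ℝ) ≤ m := Nat.cast_nonneg m
      have b1 : -(((m + 2 : ℕ) : ℝ)⁻¹ * log ρ) ≤ ε := by
        rw [div_le_iff₀ hε] at hm
        push_cast
        rw [← mul_neg, inv_mul_le_iff₀ (by linarith)]
        nlinarith
      have b2 : -(((m + 2 : ℕ) : ℝ)⁻¹ ^ 2 *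
          ∑ i, ∑ j ∈ ({i} : Finset (Fin (m + 2)))ᶜ, log ‖w k i - w k j‖) ≤ L k + ε := by
        push_cast
        rw [← mul_neg, inv_pow, inv_mul_le_iff₀ (by positivity)]
        have := hw k
        have b3 : 0 ≤ ((m:ℝ) + 2) * (L k + ε) := by
          have := hL0 k
          positivity
        nlinarith
      simp only [Lam, if_true]
      linarith
    · have := cross (hsep j k hkj.symm) hs hρ0 hρs hR1 hR3 hN hN (hwz j) (hwz k) (hl k).1
        (fun _ _ => rfl)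
      simp only [Lam, if_neg hkj]
      rw [norm_sub_rev (z j)] at this
      rw [← sub_eq_add_neg]
      refine this.trans (mul_le_mul_of_nonneg_left (by linarith) two_pi_pos.le)
  have hlim : Tendsto (fun ε : ℝ => ENNReal.ofReal (val - 2 * π * (4 * S + 2 * S ^ 2) * ε))
      (𝓝[>] 0) (𝓝 (ENNReal.ofReal val)) := by
    apply ENNReal.tendsto_ofReal
    apply Tendsto.mono_left _ nhdsWithin_le_nhds
    have : Continuous (fun ε : ℝ => val - 2 * π * (4 * S + 2 * S ^ 2) * ε) := by fun_prop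
    simpa using this.tendsto 0
  exact le_of_tendsto hlim (eventually_nhdsWithin_of_forall fun ε hε => main ε hε)

lemma exists_Phi {n : ℕ} (δ : Fin n → ℝ) {γ τ : ℝ} (hγ0 : 0 < γ) (hτ0 : 0 ≤ τ) (hτ : τ ≤ γ / 4)
    (hγ : ∀ k l, δ k ≠ δ l → γ ≤ |δ k - δ l|) :
    ∃ Φ : ℝ → ℝ, (∀ x y, |Φ x - Φ y| ≤ (1 + 4 * τ / γ) * |x - y|) ∧
      ∀ k y, |y - δ k| ≤ τ → Φ y = δ k := by
  classical
  set f : ℝ → ℝ := fun y => if h : ∃ k, |y - δ k| ≤ τ then δ h.choose else 0 with hf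
  have h1 : ∀ k y, |y - δ k| ≤ τ → f y = δ k := by
    intro k y hy
    have h : ∃ k, |y - δ k| ≤ τ := ⟨k, hy⟩
    simp only [hf, dif_pos h]
    by_contra hne
    have h2 := hγ _ _ hne
    have h3 := h.choose_spec
    have h4 : |δ h.choose - δ k| ≤ |y - δ h.choose| + |y - δ k| := by
      have : δ h.choose - δ k = (y - δ k) - (y - δ h.choose) := by ring
      rw [this, add_comm]
      exact abs_sub _ _
    linarith
  have hK : 0 ≤ 1 + 4 * τ / γ := by positivity
  have h2 : LipschitzOnWith ⟨1 + 4 * τ / γ, hK⟩ f {y | ∃ k, |y - δ k| ≤ τ} := by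
    apply LipschitzOnWith.of_dist_le_mul
    rintro x ⟨k, hk⟩ y ⟨l, hl⟩
    rw [h1 k x hk, h1 l y hl, Real.dist_eq, Real.dist_eq]
    change _ ≤ (1 + 4 * τ / γ) * _
    by_cases he : δ k = δ l
    · rw [he, sub_self, abs_zero]
      positivity
    · have h3 := hγ k l he
      have h4 : |δ k - δ l| ≤ |x - y| + 2 * τ := by
        have : δ k - δ l = (x - y) - (x - δ k) + (y - δ l) := by ring
        rw [this]
        linarith [abs_add_le (x - y - (x - δ k)) (y - δ l), abs_sub (x - y) (x - δ k)]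
      have h5 : γ / 2 ≤ |x - y| := by linarith
      have h6 : 4 * τ / γ * (γ / 2) ≤ 4 * τ / γ * |x - y| := by gcongr
      have h7 : 4 * τ / γ * (γ / 2) = 2 * τ := by field_simp; ring
      linarith
  obtain ⟨Φ, hΦ, he⟩ := h2.extend_real
  refine ⟨Φ, fun x y => ?_, fun k y hy => ?_⟩
  · have := hΦ.dist_le_mul x y
    rwa [Real.dist_eq, Real.dist_eq] at this
  · rw [← he ⟨k, hy⟩, h1 k y hy]

lemma comp_le {W : ℂ → ℝ} {Φ : ℝ → ℝ} {K : ℝ} (hK : 0 ≤ K) (hΦ : ∀ x y, |Φ x - Φ y| ≤ K * |x - y|)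
    {x : ℂ} (hx : DifferentiableAt ℝ W x) :
    ‖fderiv ℝ (fun y => Φ (W y)) x‖ ≤ K * ‖fderiv ℝ W x‖ := by
  have main : ∀ ε > 0, ‖fderiv ℝ (fun y => Φ (W y)) x‖ ≤ K * (‖fderiv ℝ W x‖ + ε) := by
    intro ε hε
    apply norm_fderiv_le_of_lip' ℝ (by positivity)
    filter_upwards [hx.hasFDerivAt.isLittleO.def hε] with y hy
    refine (hΦ _ _).trans ?_
    rw [mul_assoc]
    refine mul_le_mul_of_nonneg_left ?_ hK
    have h1 := (fderiv ℝ W x).le_opNorm (y - x)
    have h2 := norm_add_le (W y - W x - fderiv ℝ W x (y - x)) (fderiv ℝ W x (y - x))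
    rw [sub_add_cancel, Real.norm_eq_abs] at h2
    linarith
  have hlim : Tendsto (fun ε : ℝ => K * (‖fderiv ℝ W x‖ + ε)) (𝓝[>] 0)
      (𝓝 (K * ‖fderiv ℝ W x‖)) := by
    apply Tendsto.mono_left _ nhdsWithin_le_nhds
    have : Continuous (fun ε : ℝ => K * (‖fderiv ℝ W x‖ + ε)) := by fun_prop
    simpa using this.tendsto 0
  exact ge_of_tendsto hlim (eventually_nhdsWithin_of_forall fun ε hε => main ε hε)

lemma dirichlet_upper {W : ℂ → ℝ} (hW : LC W) {Φ : ℝ → ℝ} {K : ℝ} (hK : 0 ≤ K)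
    (hΦ : ∀ x y, |Φ x - Φ y| ≤ K * |x - y|) :
    LocallyLipschitz (fun y => Φ (W y)) ∧ (∃ c, Tendsto (fun y => Φ (W y)) (cocompact ℂ) (𝓝 c)) ∧
      ∫⁻ x, (‖fderiv ℝ (fun y => Φ (W y)) x‖₊ : ENNReal) ^ 2 ≤ ENNReal.ofReal (K ^ 2 * bil W W) := by
  refine ⟨?_, ⟨Φ 0, ?_⟩, ?_⟩
  · obtain ⟨C, hC⟩ := hW.1
    have : LipschitzWith ⟨K, hK⟩ Φ := LipschitzWith.of_dist_le_mul fun x y => hΦ x y
    exact (this.comp hC).locallyLipschitz
  · obtain ⟨M, hM⟩ := hW.2
    apply tendsto_const_nhds.congr'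
    filter_upwards [(tendsto_norm_cocompact_atTop (E := ℂ)).eventually (eventually_ge_atTop M)] with x hx
    rw [hM x hx]
  · rw [bil, ← integral_const_mul, ofReal_integral_eq_lintegral_ofReal
      ((integrable_bil hW.1 hW).const_mul _)
      (Eventually.of_forall fun x => mul_nonneg (sq_nonneg _) real_inner_self_nonneg)]
    apply lintegral_mono_ae
    filter_upwards [hW.1.ae] with x hx
    rw [sq_ofReal]
    apply ENNReal.ofReal_le_ofReal
    rw [real_inner_self_eq_norm_sq, norm_grad, ← mul_pow]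
    exact pow_le_pow_left₀ (norm_nonneg _) (comp_le hK hΦ hx) 2

lemma pot_ge {N : ℕ} (hN : N ≠ 0) {w : Fin N → ℂ} {ρ R A : ℝ} {x : ℂ} (hρ0 : 0 < ρ) (hρ1 : ρ ≤ 1)
    (hR : 1 ≤ R) (h1 : ∀ j, ‖x - w j‖ ≤ 1) (hρ : ρ ≤ exp A ^ N)
    (hA : ∏ j, ‖x - w j‖ ≤ exp A ^ N) : log R - A ≤ pot w ρ R x := by
  have hN' : (0:ℝ) < N := by positivity
  have hm : ∀ j, min R ‖x - w j‖ = ‖x - w j‖ := fun j => min_eq_right (by linarith [h1 j])
  have hp : ∀ j, 0 < max ρ ‖x - w j‖ := fun j => lt_max_of_lt_left hρ0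
  have h2 : ∏ j, max ρ ‖x - w j‖ ≤ exp A ^ N := by
    by_cases h : ∀ j, ρ ≤ ‖x - w j‖
    · simpa only [fun j => max_eq_right (h j)] using hA
    · push Not at h
      obtain ⟨j, hj⟩ := h
      rw [← Finset.mul_prod_erase _ _ (Finset.mem_univ j), max_eq_left hj.le]
      refine le_trans (mul_le_of_le_one_right hρ0.le ?_) hρ
      exact Finset.prod_le_one (fun i _ => (hp i).le) fun i _ => max_le hρ1 (h1 i)
  have h3 := log_le_log (Finset.prod_pos fun j _ => hp j) h2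
  rw [log_prod (fun j _ => (hp j).ne'), log_pow, log_exp] at h3
  simp only [pot, g, hm]
  rw [← Finset.mul_sum, Finset.sum_sub_distrib, Finset.sum_const, Finset.card_univ,
    Fintype.card_fin, nsmul_eq_mul, le_inv_mul_iff₀ hN']
  linarith

lemma bil_trunc_zero {u G : ℂ → ℝ} {A : ℝ} (hG : Continuous G)
    (h : ∀ x, A ≤ G x → ∇ u x = 0) : bil u (fun x => G x - min (G x) A) = 0 := by
  rw [bil]
  apply integral_eq_zero_of_ae
  refine Eventually.of_forall fun x => ?_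
  by_cases hx : A ≤ G x
  · simp [h x hx]
  · have h3 : (fun x => G x - min (G x) A) =ᶠ[𝓝 x] fun _ => 0 := by
      filter_upwards [hG.continuousAt.eventually (gt_mem_nhds (not_le.1 hx))] with y hy
      simp [hy.le]
    simp [h3.gradient_eq]

lemma upper {n : ℕ} {z : Fin n → ℂ} {δ L q : Fin n → ℝ} {E : Fin n → Set ℂ} {s ω M c θ γ : ℝ}
    (hs : 0 < s) (hs1 : 2 * s ≤ 1) (hM : 4 * s ≤ M) (hω : 0 < ω)
    (hsep : ∀ k l, k ≠ l → Sep (z k) (z l) s ω M)
    (hE : ∀ k, ∀ x ∈ E k, ‖x - z k‖ < s) (hL : ∀ k, -log s < L k - ω)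
    (hF : ∀ k, ∃ N : ℕ, N ≠ 0 ∧ ∃ w : Fin N → ℂ, (∀ j, w j ∈ E k) ∧
      ∀ x ∈ E k, ∏ j, ‖x - w j‖ ≤ exp (-(L k - ω)) ^ N)
    (hq : ∑ k, q k = 0) (hθ0 : 0 ≤ θ) (hθ : ∀ k, |c + ∑ j, q j * Lam z L k j - δ k| ≤ θ)
    (hγ0 : 0 < γ) (hγ : ∀ k l, δ k ≠ δ l → γ ≤ |δ k - δ l|)
    (hτ : θ + (∑ k, |q k|) * ω ≤ γ / 4) :
    0 ≤ 2 * π * (∑ k, q k * ∑ j, q j * Lam z L k j + (∑ k, |q k|) ^ 2 * (2 * ω)) ∧
    ∃ u : ℂ → ℝ, (LocallyLipschitz u ∧ (∃ c, Tendsto u (cocompact ℂ) (𝓝 c)) ∧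
      ∀ k, ∀ x ∈ E k, u x = δ k) ∧
      ∫⁻ x, (‖fderiv ℝ u x‖₊ : ENNReal) ^ 2 ≤ ENNReal.ofReal
        ((1 + 4 * (θ + (∑ k, |q k|) * ω) / γ) ^ 2 *
          (2 * π * (∑ k, q k * ∑ j, q j * Lam z L k j + (∑ k, |q k|) ^ 2 * (2 * ω)))) := by
  set S := ∑ k, |q k| with hS
  have hS0 : 0 ≤ S := Finset.sum_nonneg fun _ _ => abs_nonneg _
  choose N hN w hwE hw using hF
  obtain ⟨ρ, ⟨hρ, hρs⟩, hρ0⟩ : ∃ ρ : ℝ, ((∀ k, ρ ≤ exp (-(L k - ω)) ^ N k) ∧ ρ ≤ s) ∧ 0 < ρ := by
    have h1 : ∀ᶠ ρ : ℝ in 𝓝 0, (∀ k, ρ ≤ exp (-(L k - ω)) ^ N k) ∧ ρ ≤ s :=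
      (eventually_all.2 fun k => eventually_le_nhds (by positivity)).and (eventually_le_nhds hs)
    exact ((h1.filter_mono nhdsWithin_le_nhds).and (self_mem_nhdsWithin (s := Ioi (0:ℝ)))).exists
  obtain ⟨R, hR1, hR2, hR3⟩ := exists_R (by linarith : 0 < M) hω 1
  have hρR : ρ ≤ R := by linarith
  have hwz : ∀ k j, ‖w k j - z k‖ < s := fun k j => hE k _ (hwE k j)
  have hl : ∀ k, LC (pot (w k) ρ R) := fun k => pot_lc _ hρ0 hρR
  have hA : ∀ k, 0 ≤ log R + (L k - ω) := by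
    intro k
    have h1 := log_nonneg hR2
    have h2 := log_nonpos hs.le (by linarith)
    linarith [hL k]
  set V : Fin n → ℂ → ℝ := fun k x => min (pot (w k) ρ R x) (log R + (L k - ω)) with hV
  have hVl : ∀ k, LC (V k) := fun k => (hl k).minc (hA k)
  have hout : ∀ k x, 2 * s ≤ ‖x - z k‖ → pot (w k) ρ R x < log R + (L k - ω) := by
    intro k x hx
    have := pot_far (ρ := ρ) (R := R) hs (by linarith) (hN k) (hwz k) (x := x) (by linarith)
    linarith [hL k]
  have hVe : ∀ k x, 2 * s ≤ ‖x - z k‖ → V k x = pot (w k) ρ R x :=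
    fun k x hx => min_eq_left (hout k x hx).le
  have hsplit : ∀ u k, Lip u → bil u (V k) = bil u (pot (w k) ρ R) -
      bil u (fun x => pot (w k) ρ R x - V k x) := by
    intro u k hu
    rw [bil_sub hu (hl k) (hVl k)]
    ring
  have h3 := quad q hq (fun k j => bil (V k) (V j)) (Lam z L) (log R) (2 * ω)
    (fun k => ?_) (fun k j hkj => ?_)
  · rw [← bil_quad q hVl, ← hS] at h3
    refine ⟨le_trans (integral_nonneg fun x => real_inner_self_nonneg) h3, ?_⟩
    have hτ0 : 0 ≤ θ + S * ω := by positivity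
    obtain ⟨Φ, hΦ, hΦe⟩ := exists_Phi δ hγ0 hτ0 hτ hγ
    have hK : 0 ≤ 1 + 4 * (θ + S * ω) / γ := by positivity
    obtain ⟨a1, a2, a3⟩ := dirichlet_upper (lc_sum q hVl) (Φ := fun y => Φ (c + y)) hK
      (fun x y => by simpa using hΦ (c + x) (c + y))
    refine ⟨_, ⟨a1, a2, fun k x hx => hΦe k _ ?_⟩, a3.trans (ENNReal.ofReal_le_ofReal
      (mul_le_mul_of_nonneg_left h3 (sq_nonneg _)))⟩
    have b1 : ∀ j, |V j x - (log R + Lam z L k j)| ≤ ω := by
      intro j
      by_cases hkj : k = j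
      · subst hkj
        have b2 := pot_ge (hN k) hρ0 (by linarith) hR2 (fun j => ?_) (hρ k) (hw k x hx)
        · have b3 : V k x = log R + (L k - ω) := min_eq_right (by linarith)
          simp only [Lam, if_true, b3]
          rw [abs_le]
          constructor <;> linarith
        · have : ‖x - w k j‖ ≤ ‖x - z k‖ + ‖w k j - z k‖ := by
            have : x - w k j = (x - z k) - (w k j - z k) := by ring
            rw [this]
            exact norm_sub_le _ _
          linarith [hE k x hx, hwz k j]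
      · have b2 : ‖x - z k‖ < 2 * s := by linarith [hE k x hx]
        rw [hVe j x ((hsep k j hkj).1 x (z j) b2 (by simpa using hs)).2]
        simp only [Lam, if_neg hkj]
        exact pot_near (hsep k j hkj) hs hρs hR1 (hN j) (hwz j) b2
    have b4 : c + ∑ j, q j * V j x - δ k = (c + ∑ j, q j * Lam z L k j - δ k) +
        ∑ j, q j * (V j x - (log R + Lam z L k j)) := by
      simp only [mul_sub, mul_add, Finset.sum_sub_distrib, Finset.sum_add_distrib,
        ← Finset.sum_mul, hq]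
      ring
    rw [b4]
    refine (abs_add_le _ _).trans (add_le_add (hθ k) ((Finset.abs_sum_le_sum_abs _ _).trans ?_))
    rw [hS, Finset.sum_mul]
    refine Finset.sum_le_sum fun j _ => ?_
    rw [abs_mul]
    exact mul_le_mul_of_nonneg_left (b1 j) (abs_nonneg _)
  · have c1 : bil (V k) (fun x => pot (w k) ρ R x - V k x) = 0 := by
      apply bil_trunc_zero (hl k).1.cont
      intro x hx
      have : IsLocalMax (V k) x := Eventually.of_forall fun y => by
        simp only [hV, min_eq_right hx]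
        exact min_le_right _ _
      simp [gradient, this.fderiv_eq_zero]
    rw [hsplit _ _ (hVl k).1, c1, sub_zero, bil_pot (hVl k).1 _ hρ0 hρR]
    refine mul_le_mul_of_nonneg_left ?_ two_pi_pos.le
    have a1 := mav_le (hVl k).1.cont (hN k) hρ0 (w := w k) (A := log R + (L k - ω))
      fun j x _ => min_le_right _ _
    have a2 := le_mav (hVl k).1.cont (hN k) (by linarith : 0 < R) (w := w k) (A := 0)
      fun j x _ => le_min (pot_nonneg _ hρ0 hρR x) (hA k)
    simp only [Lam, if_true]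
    linarith
  · have hH : ∀ k, LC (fun x => pot (w k) ρ R x - V k x) := fun k => (hl k).sub (hVl k)
    have c1 : bil (fun x => pot (w k) ρ R x - V k x) (fun x => pot (w j) ρ R x - V j x) = 0 := by
      apply bil_trunc_zero (hl j).1.cont
      intro x hx
      have d1 : ‖x - z j‖ < 2 * s := by
        by_contra d
        linarith [hout j x (not_lt.1 d)]
      have d2 := hout k x ((hsep j k hkj.symm).1 x (z k) d1 (by simpa using hs)).2
      have h3 : (fun x => pot (w k) ρ R x - V k x) =ᶠ[𝓝 x] fun _ => 0 := by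
        filter_upwards [(hl k).1.cont.continuousAt.eventually (gt_mem_nhds d2)] with y hy
        simp [hV, hy.le]
      simp [h3.gradient_eq]
    have c2 : bil (fun x => pot (w j) ρ R x - V j x) (pot (w k) ρ R) = 0 := by
      have e1 := (hsep k j hkj).2
      have e2 := norm_nonneg (z k - z j)
      have d1 : ∀ i x, ‖x - w k i‖ = ρ → pot (w j) ρ R x - V j x = 0 := by
        intro i x hx
        have h1 : ‖x - z k‖ < 2 * s := by
          have : ‖x - z k‖ ≤ ‖x - w k i‖ + ‖w k i - z k‖ := norm_sub_le_norm_sub_add_norm_sub _ _ _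
          linarith [hwz k i]
        rw [hVe j x ((hsep k j hkj).1 x (z j) h1 (by simpa using hs)).2, sub_self]
      have d2 : ∀ i x, ‖x - w k i‖ = R → pot (w j) ρ R x - V j x = 0 := by
        intro i x hx
        have h5 : ‖x - w k i‖ ≤ ‖x - z j‖ + ‖z k - z j‖ + ‖w k i - z k‖ := by
          have : x - w k i = (x - z j) - (z k - z j) - (w k i - z k) := by ring
          rw [this]
          exact (norm_sub_le _ _).trans (by gcongr; exact norm_sub_le _ _)
        rw [hVe j x (by linarith [hwz k i]), sub_self]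
      have a1 := mav_le (hH j).1.cont (hN k) hρ0 (w := w k) fun i x hx => (d1 i x hx).le
      have a2 := le_mav (hH j).1.cont (hN k) hρ0 (w := w k) fun i x hx => (d1 i x hx).ge
      have a3 := mav_le (hH j).1.cont (hN k) (by linarith : 0 < R) (w := w k)
        fun i x hx => (d2 i x hx).le
      have a4 := le_mav (hH j).1.cont (hN k) (by linarith : 0 < R) (w := w k)
        fun i x hx => (d2 i x hx).ge
      rw [bil_pot (hH j).1 _ hρ0 hρR, le_antisymm a1 a2, le_antisymm a3 a4]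
      simp
    have c3 : bil (V k) (fun x => pot (w j) ρ R x - V j x) = 0 := by
      rw [bil_comm, hsplit _ k (hH j).1, c2, bil_comm, c1, sub_zero]
    have := cross (hsep j k hkj.symm) hs hρ0 hρs hR1 hR3 (hN j) (hN k) (hwz j) (hwz k) (hVl k).1
      (hVe k)
    simp only [Lam, if_neg hkj]
    rw [norm_sub_rev (z j)] at this
    rw [← sub_eq_add_neg, hsplit _ j (hVl k).1, c3, sub_zero, two_mul ω]
    exact this

end Pool.Agent.H.MP_6dace2_an
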