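import Pool.Agent.H.MP_6dace2_an.D

set_option autoImplicit false
open Filter Topology Real MeasureTheory Set Metric
open scoped InnerProductSpace Gradient NNReal

namespace Pool.Agent.H.MP_6dace2_an

noncomputable def VV {N : ℕ} (w : Fin N → ℂ) : ℝ := ∏ i, ∏ j ∈ Finset.Ioi i, ‖w i - w j‖

noncomputable def UU {N : ℕ} (w : Fin N → ℂ) : ℝ := ∏ i, ∏ j ∈ ({i} : Finset (Fin N))ᶜ, ‖w i - w j‖

noncomputable def td (E : Set ℂ) : ℝ :=
  ⨅ m : ℕ, ⨆ w : Fin (m + 2) → E, VV (fun i => (w i : ℂ)) ^ ((2:ℝ) / (((m:ℝ) + 2) * ((m:ℝ) + 1)))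

lemma VV_nonneg {N : ℕ} (w : Fin N → ℂ) : 0 ≤ VV w :=
  Finset.prod_nonneg fun _ _ => Finset.prod_nonneg fun _ _ => norm_nonneg _

lemma UU_eq {N : ℕ} (w : Fin N → ℂ) : UU w = VV w ^ 2 := by
  have := Finset.prod_prod_Ioi_mul_eq_prod_prod_off_diag (fun j i : Fin N => ‖w i - w j‖)
  rw [UU, ← this, VV, sq, ← Finset.prod_mul_distrib]
  refine Finset.prod_congr rfl fun i _ => ?_
  rw [← Finset.prod_mul_distrib]
  exact Finset.prod_congr rfl fun j _ => by rw [norm_sub_rev (w j)]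

lemma prod_compl_eq {N : ℕ} (i : Fin (N + 1)) (f : Fin (N + 1) → ℝ) :
    ∏ j ∈ ({i} : Finset (Fin (N + 1)))ᶜ, f j = ∏ j : Fin N, f (i.succAbove j) := by
  rw [← Fin.image_succAbove_univ, Finset.prod_image fun _ _ _ _ h => Fin.succAbove_right_injective h]

lemma UU_ite {N : ℕ} (w : Fin N → ℂ) :
    UU w = ∏ a, ∏ b, if b = a then 1 else ‖w a - w b‖ := by
  refine Finset.prod_congr rfl fun a _ => ?_
  rw [← Finset.prod_mul_prod_compl {a}, Finset.prod_singleton, if_pos rfl, one_mul]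
  refine Finset.prod_congr rfl fun b hb => ?_
  rw [if_neg (by simpa using hb)]

lemma UU_split {N : ℕ} (w : Fin (N + 1) → ℂ) (i : Fin (N + 1)) :
    UU w = (∏ j : Fin N, ‖w i - w (i.succAbove j)‖) ^ 2 * UU (fun j => w (i.succAbove j)) := by
  rw [UU_ite, UU_ite, Fin.prod_univ_succAbove _ i]
  simp only [Fin.prod_univ_succAbove _ i, if_true, one_mul, Fin.succAbove_ne, if_false,
    Fin.ne_succAbove, Fin.succAbove_right_inj, Finset.prod_mul_distrib]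
  rw [sq, mul_assoc]
  congr 2
  exact Finset.prod_congr rfl fun j _ => norm_sub_rev _ _

lemma td_term_le {E : Set ℂ} {a : ℂ} {s : ℝ} (hs1 : 2 * s ≤ 1) (hE : ∀ x ∈ E, ‖x - a‖ < s) (m : ℕ) :
    BddAbove (range fun w : Fin (m + 2) → E =>
      VV (fun i => (w i : ℂ)) ^ ((2:ℝ) / (((m:ℝ) + 2) * ((m:ℝ) + 1)))) := by
  refine ⟨1, ?_⟩
  rintro _ ⟨w, rfl⟩
  refine rpow_le_one (VV_nonneg _) ?_ (by positivity)
  refine Finset.prod_le_one (fun _ _ => Finset.prod_nonneg fun _ _ => norm_nonneg _) fun i _ => ?_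
  refine Finset.prod_le_one (fun _ _ => norm_nonneg _) fun j _ => ?_
  have : (w i : ℂ) - w j = (w i - a) - (w j - a) := by ring
  rw [this]
  linarith [norm_sub_le ((w i : ℂ) - a) (w j - a), hE _ (w i).2, hE _ (w j).2]

lemma td_le (E : Set ℂ) (m : ℕ) : td E ≤ ⨆ w : Fin (m + 2) → E,
    VV (fun i => (w i : ℂ)) ^ ((2:ℝ) / (((m:ℝ) + 2) * ((m:ℝ) + 1))) := by
  refine ciInf_le ⟨0, ?_⟩ m
  rintro _ ⟨m, rfl⟩
  exact Real.iSup_nonneg fun w => rpow_nonneg (VV_nonneg _) _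

lemma td_ne {E : Set ℂ} (hd : 0 < td E) (m : ℕ) : Nonempty (Fin (m + 2) → E) := by
  by_contra h
  rw [not_nonempty_iff] at h
  have := td_le E m
  rw [Real.iSup_of_isEmpty] at this
  linarith

lemma pow_e {V : ℝ} (hV : 0 ≤ V) (m : ℕ) :
    (V ^ ((2:ℝ) / (((m:ℝ) + 2) * ((m:ℝ) + 1)))) ^ ((m + 1) * (m + 2)) = V ^ 2 := by
  rw [← rpow_natCast, ← rpow_mul hV, ← rpow_natCast]
  congr 1
  push_cast
  field_simp

lemma fek1 {E : Set ℂ} (hd : 0 < td E) (m : ℕ) (ε : ℝ) (hε : 0 < ε) :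
    ∃ w : Fin (m + 2) → ℂ, (∀ j, w j ∈ E) ∧ Function.Injective w ∧
      -(((m:ℝ) + 2) * ((m:ℝ) + 1)) * (-log (td E) + ε) ≤
        ∑ i, ∑ j ∈ ({i} : Finset (Fin (m + 2)))ᶜ, log ‖w i - w j‖ := by
  haveI := td_ne hd m
  have h0 : 0 < td E * exp (-ε) := by positivity
  have h1 : td E * exp (-ε) < td E := mul_lt_of_lt_one_right hd (by simpa using hε)
  obtain ⟨w, hw⟩ := exists_lt_of_lt_ciSup (h1.trans_le (td_le E m))
  have h2 := pow_le_pow_left₀ h0.le hw.le ((m + 1) * (m + 2))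
  rw [pow_e (VV_nonneg _), ← UU_eq] at h2
  have h3 : 0 < UU (fun i => (w i : ℂ)) := lt_of_lt_of_le (by positivity) h2
  have h4 : ∀ i, ∀ j ∈ ({i} : Finset (Fin (m + 2)))ᶜ, ‖(w i : ℂ) - w j‖ ≠ 0 := by
    intro i j hj
    exact Finset.prod_ne_zero_iff.1 (Finset.prod_ne_zero_iff.1 h3.ne' i (Finset.mem_univ i)) j hj
  refine ⟨fun i => w i, fun j => (w j).2, fun i j hij => ?_, ?_⟩
  · by_contra hne
    apply h4 i j (by simpa using fun e => hne e.symm)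
    simp only at hij
    simp [hij]
  · have h5 := log_le_log (by positivity) h2
    rw [UU, log_prod (fun i _ => Finset.prod_ne_zero_iff.2 (h4 i)), log_pow,
      log_mul hd.ne' (exp_pos _).ne', log_exp] at h5
    simp only [fun i => log_prod (h4 i)] at h5
    push_cast at h5
    linarith

lemma fek2 {E : Set ℂ} {a : ℂ} {s : ℝ} (hs1 : 2 * s ≤ 1) (hE : ∀ x ∈ E, ‖x - a‖ < s)
    (hc : IsClosed E) (hd : 0 < td E) {ω : ℝ} (hω : 0 < ω) :
    ∃ N : ℕ, N ≠ 0 ∧ ∃ w : Fin N → ℂ, (∀ j, w j ∈ E) ∧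
      ∀ x ∈ E, ∏ j, ‖x - w j‖ ≤ exp (-(-log (td E) - ω)) ^ N := by
  have hA : exp (-(-log (td E) - ω)) = td E * exp ω := by
    rw [neg_sub, sub_neg_eq_add, exp_add, exp_log hd, mul_comm]
  rw [hA]
  set A := td E * exp ω with hAd
  have hA0 : 0 < A := by positivity
  have h1 : td E < A := lt_mul_of_one_lt_right hd (by simpa using hω)
  obtain ⟨m, hm⟩ := exists_lt_of_ciInf_lt h1
  haveI := td_ne hd m
  have hK : IsCompact E := (isCompact_closedBall a s).of_isClosed_subset hc fun x hx => by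
    rw [mem_closedBall, dist_eq_norm]
    exact (hE x hx).le
  haveI : CompactSpace E := isCompact_iff_compactSpace.1 hK
  have hcont : Continuous fun w : Fin (m + 2) → E => VV (fun i => (w i : ℂ)) := by
    unfold VV
    fun_prop
  obtain ⟨w, -, hw⟩ := isCompact_univ.exists_isMaxOn univ_nonempty hcont.continuousOn
  have hw' : ∀ v : Fin (m + 2) → E, VV (fun i => (v i : ℂ)) ≤ VV (fun i => (w i : ℂ)) :=
    fun v => hw (mem_univ v)
  have h2 := (le_ciSup (td_term_le hs1 hE m) w).trans hm.le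
  have h3 := pow_le_pow_left₀ (rpow_nonneg (VV_nonneg _) _) h2 ((m + 1) * (m + 2))
  rw [pow_e (VV_nonneg _), ← UU_eq] at h3
  have h4 : td E ≤ VV (fun i => (w i : ℂ)) ^ ((2:ℝ) / (((m:ℝ) + 2) * ((m:ℝ) + 1))) :=
    (td_le E m).trans (ciSup_le fun v => rpow_le_rpow (VV_nonneg _) (hw' v) (by positivity))
  have h5 := pow_le_pow_left₀ hd.le h4 ((m + 1) * (m + 2))
  rw [pow_e (VV_nonneg _), ← UU_eq] at h5
  have h6 : 0 < UU (fun i => (w i : ℂ)) := lt_of_lt_of_le (by positivity) h5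
  obtain ⟨i, hi⟩ : ∃ i : Fin (m + 2), ∏ j : Fin (m + 1), ‖(w i : ℂ) - w (i.succAbove j)‖
      ≤ A ^ (m + 1) := by
    by_contra h
    push Not at h
    have := Finset.prod_lt_prod_of_nonempty (s := Finset.univ) (fun _ _ => pow_pos hA0 (m + 1))
      (fun i _ => h i) Finset.univ_nonempty
    rw [Finset.prod_const, Finset.card_univ, Fintype.card_fin, ← pow_mul] at this
    rw [UU] at h3
    simp only [prod_compl_eq] at h3
    linarith
  refine ⟨m + 1, by omega, fun j => w (i.succAbove j), fun j => (w _).2, fun x hx => le_trans ?_ hi⟩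
  have h7 := pow_le_pow_left₀ (VV_nonneg _) (hw' (Function.update w i ⟨x, hx⟩)) 2
  rw [← UU_eq, ← UU_eq, UU_split _ i, UU_split _ i] at h7
  rw [UU_split _ i] at h6
  simp only [Function.update_self, Function.update_of_ne (Fin.succAbove_ne i _)] at h7
  have h8 : 0 < UU fun j => (w (i.succAbove j) : ℂ) :=
    (pos_iff_pos_of_mul_pos h6).1 (lt_of_le_of_ne (sq_nonneg _) fun e => by
      rw [← e, zero_mul] at h6
      exact lt_irrefl _ h6)
  exact (pow_le_pow_iff_left₀ (Finset.prod_nonneg fun _ _ => norm_nonneg _)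
    (Finset.prod_nonneg fun _ _ => norm_nonneg _) two_ne_zero).1 (le_of_mul_le_mul_right h7 h8)

lemma exists_sep {n : ℕ} {z : Fin n → ℂ} (hz : Function.Injective z) {ω : ℝ} (hω : 0 < ω) :
    ∃ s M : ℝ, 0 < s ∧ 2 * s ≤ 1 ∧ 4 * s ≤ M ∧ ∀ k l, k ≠ l → Sep (z k) (z l) s ω M := by
  have h1 : ∀ k l, ∀ᶠ s : ℝ in 𝓝 0, k ≠ l → ∀ x y, ‖x - z k‖ < 2 * s → ‖y - z l‖ < 2 * s →
      |log ‖x - y‖ - log ‖z k - z l‖| ≤ ω ∧ 2 * s ≤ ‖x - y‖ := by
    intro k l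
    by_cases hkl : k = l
    · simp [hkl]
    have hd : 0 < ‖z k - z l‖ := norm_pos_iff.2 (sub_ne_zero.2 (hz.ne hkl))
    obtain ⟨t, ht, h2⟩ := Metric.continuousAt_iff.1 (continuousAt_log hd.ne') ω hω
    filter_upwards [eventually_le_nhds (by positivity : 0 < t / 4),
      eventually_le_nhds (by positivity : 0 < ‖z k - z l‖ / 6)] with s h3 h4 _ x y hx hy
    have h5 : |‖x - y‖ - ‖z k - z l‖| < 4 * s := by
      refine (abs_norm_sub_norm_le _ _).trans_lt ?_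
      have : x - y - (z k - z l) = (x - z k) - (y - z l) := by ring
      rw [this]
      linarith [norm_sub_le (x - z k) (y - z l)]
    refine ⟨(h2 (by rw [Real.dist_eq]; linarith)).le, ?_⟩
    linarith [(abs_lt.1 h5).1]
  have h2 : ∀ᶠ s : ℝ in 𝓝 0, (∀ k l, k ≠ l → ∀ x y, ‖x - z k‖ < 2 * s → ‖y - z l‖ < 2 * s →
      |log ‖x - y‖ - log ‖z k - z l‖| ≤ ω ∧ 2 * s ≤ ‖x - y‖) ∧ s ≤ 1 / 2 :=
    (eventually_all.2 fun k => eventually_all.2 fun l => h1 k l).and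
      (eventually_le_nhds (by norm_num))
  obtain ⟨s, ⟨h3, h4⟩, hs⟩ := ((h2.filter_mono nhdsWithin_le_nhds).and
    (self_mem_nhdsWithin (s := Ioi (0:ℝ)))).exists
  have h5 : ∀ k, ‖z k‖ ≤ ∑ k, ‖z k‖ := fun k =>
    Finset.single_le_sum (f := fun k => ‖z k‖) (fun _ _ => norm_nonneg _) (Finset.mem_univ k)
  have h6 : 0 ≤ ∑ k, ‖z k‖ := Finset.sum_nonneg fun _ _ => norm_nonneg _
  refine ⟨s, 2 * ∑ k, ‖z k‖ + 4 * s, hs, by linarith, by linarith, fun k l hkl => ⟨h3 k l hkl, ?_⟩⟩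
  linarith [norm_sub_le (z k) (z l), h5 k, h5 l]

/-- The condenser capacity. -/
noncomputable def cap {n : ℕ} (δ : Fin n → ℝ) (E : Fin n → Set ℂ) : ENNReal :=
  ⨅ (u : ℂ → ℝ) (_ : LocallyLipschitz u ∧ (∃ c : ℝ, Tendsto u (cocompact ℂ) (𝓝 c)) ∧
      ∀ k, ∀ x ∈ E k, u x = δ k), ∫⁻ x, (‖fderiv ℝ u x‖₊ : ENNReal) ^ 2

lemma two_sided {n : ℕ} {z : Fin n → ℂ} {δ q : Fin n → ℝ} {E : Fin n → Set ℂ} {s ω M c θ γ : ℝ}
    (hs : 0 < s) (hs1 : 2 * s ≤ 1) (hM : 4 * s ≤ M) (hω : 0 < ω)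
    (hsep : ∀ k l, k ≠ l → Sep (z k) (z l) s ω M) (hcl : ∀ k, IsClosed (E k))
    (hE : ∀ k, ∀ x ∈ E k, ‖x - z k‖ < s) (hd : ∀ k, 0 < td (E k))
    (hL : ∀ k, -log s < -log (td (E k)) - ω)
    (hq : ∑ k, q k = 0) (hθ0 : 0 ≤ θ)
    (hθ : ∀ k, |c + ∑ j, q j * Lam z (fun k => -log (td (E k))) k j - δ k| ≤ θ)
    (hγ0 : 0 < γ) (hγ : ∀ k l, δ k ≠ δ l → γ ≤ |δ k - δ l|)
    (hτ : θ + (∑ k, |q k|) * ω ≤ γ / 4) :
    |(cap δ E).toReal - 2 * π * ∑ k, q k * δ k| ≤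
      2 * π * (12 * (θ + (∑ k, |q k|) * ω) / γ * |∑ k, q k * δ k| +
        4 * ((∑ k, |q k|) * θ + (∑ k, |q k|) ^ 2 * (2 * ω))) := by
  have hL0 : ∀ k, 0 ≤ -log (td (E k)) := by
    intro k
    have h2 := log_nonpos hs.le (by linarith)
    linarith [hL k]
  obtain ⟨hnn, u, hu, hup⟩ := upper hs hs1 hM hω hsep hE hL
    (fun k => fek2 hs1 (hE k) (hcl k) (hd k) hω) hq hθ0 hθ hγ0 hγ hτ
  have hup' : cap δ E ≤ _ := (iInf₂_le u hu).trans hup
  have hlo : _ ≤ cap δ E := le_iInf₂ fun u hu => by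
    obtain ⟨h1, ⟨c, h2⟩, h3⟩ := hu
    exact lower hs hM hω.le hsep hE hL0 (fun k m ε hε => fek1 (hd k) m ε hε) hq h1 h2 h3
  set S := ∑ k, |q k| with hS
  have hS0 : 0 ≤ S := Finset.sum_nonneg fun _ _ => abs_nonneg _
  set Q := ∑ k, q k * ∑ j, q j * Lam z (fun k => -log (td (E k))) k j with hQ
  set P := ∑ k, q k * δ k with hP
  have hQP : |Q - P| ≤ S * θ := by
    have : Q - P = ∑ k, q k * (c + ∑ j, q j * Lam z (fun k => -log (td (E k))) k j - δ k) := by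
      simp only [mul_sub, mul_add, Finset.sum_sub_distrib, Finset.sum_add_distrib,
        ← Finset.sum_mul, hq, hQ, hP]
      ring
    rw [this]
    refine (Finset.abs_sum_le_sum_abs _ _).trans ?_
    rw [hS, Finset.sum_mul]
    refine Finset.sum_le_sum fun j _ => ?_
    rw [abs_mul]
    exact mul_le_mul_of_nonneg_left (hθ j) (abs_nonneg _)
  have hfin : cap δ E ≠ ⊤ := ne_top_of_le_ne_top ENNReal.ofReal_ne_top hup'
  have h1 := (ENNReal.ofReal_le_iff_le_toReal hfin).1 hlo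
  set τ := θ + S * ω with hτd
  have hτ0 : 0 ≤ τ := by positivity
  have hx0 : 0 ≤ τ / γ := by positivity
  have hx1 : τ / γ ≤ 1 / 4 := by
    rw [div_le_iff₀ hγ0]
    linarith
  have e1 : 4 * τ / γ = 4 * (τ / γ) := by ring
  have e2 : 12 * τ / γ = 12 * (τ / γ) := by ring
  rw [e1] at hup'
  rw [e2]
  set x := τ / γ
  have hb : 0 ≤ S * θ + S ^ 2 * (2 * ω) := by positivity
  have hb1 : 0 ≤ S * θ := by positivity
  have hb2 : 0 ≤ S ^ 2 * ω := by positivity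
  have h2 : (cap δ E).toReal ≤ 2 * π * (P + (12 * x * |P| + 4 * (S * θ + S ^ 2 * (2 * ω)))) := by
    have hP0 : 0 ≤ P + (12 * x * |P| + 4 * (S * θ + S ^ 2 * (2 * ω))) := by
      have k0 := (mul_nonneg_iff_of_pos_left two_pi_pos).1 hnn
      have : 0 ≤ x * |P| := by positivity
      nlinarith [(abs_le.1 hQP).2]
    refine ENNReal.toReal_le_of_le_ofReal (by positivity) (hup'.trans (ENNReal.ofReal_le_ofReal ?_))
    rw [mul_left_comm]
    refine mul_le_mul_of_nonneg_left ?_ two_pi_pos.le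
    have k1 : (1 + 4 * x) ^ 2 * (Q + S ^ 2 * (2 * ω)) ≤
        (1 + 4 * x) ^ 2 * (P + (S * θ + S ^ 2 * (2 * ω))) :=
      mul_le_mul_of_nonneg_left (by linarith [(abs_le.1 hQP).2]) (sq_nonneg _)
    have k2 : ((1 + 4 * x) ^ 2 - 1) * P ≤ 12 * x * |P| := by
      refine le_trans (mul_le_mul_of_nonneg_left (le_abs_self P) (by nlinarith)) ?_
      exact mul_le_mul_of_nonneg_right (by nlinarith) (abs_nonneg _)
    have k3 : (1 + 4 * x) ^ 2 * (S * θ + S ^ 2 * (2 * ω)) ≤ 4 * (S * θ + S ^ 2 * (2 * ω)) :=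
      mul_le_mul_of_nonneg_right (by nlinarith) hb
    nlinarith
  have h3 : 2 * π * (P - (12 * x * |P| + 4 * (S * θ + S ^ 2 * (2 * ω)))) ≤ (cap δ E).toReal := by
    refine le_trans (mul_le_mul_of_nonneg_left ?_ two_pi_pos.le) h1
    have : 0 ≤ x * |P| := by positivity
    nlinarith [(abs_le.1 hQP).2]
  rw [abs_le]
  constructor <;> nlinarith

end Pool.Agent.H.MP_6dace2_an
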